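import Pool.Agent.MD.A.Defs
import Pool.Agent.QD.A.PL
import Pool.Agent.LD.A.Euler
import Pool.Agent.LD.A.Gfe

/-!
# MD/A-Bd1: adapted from LD/A/Bd1 (classes in a set `Kn` instead of outside a subgroup)
-/

namespace Pool.Agent.MD

open Pool.Agent.QD Pool.Agent.QD.SysD Pool.Agent.LD

variable {S : SysD} {Kn : Set S.G}

/-- bound for `ell` on the right -/
private theorem ell_right (hS : IsSys0 S) (hG : IsKn S Kn) : ∃ C : ℝ, 0 ≤ C ∧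
    ∀ b c, S.R b c → c ∈ Kn → ∀ s : ℂ, 2 ≤ s.re → ‖S.ell b c s‖ ≤ C := by
  obtain ⟨C1, hC1, h1⟩ := Ls_bd hS (c := 2) (by norm_num)
  obtain ⟨C2, hC2, h2⟩ := Lu_bd hS (c := 2) (by norm_num)
  refine ⟨C1 * C2, mul_nonneg hC1 hC2, ?_⟩
  intro b c hb hn s hs
  rw [hG.ell_eq b c hb hn s (by linarith), norm_mul]
  exact mul_le_mul (h1 s hs) (h2 b c hb s hs) (norm_nonneg _) hC1

/-- uniform bound for `GG` on a vertical line -/
private theorem GG_left (hS : IsSys0 S) (hG : IsKn S Kn) (a : ℝ) (ha : a < 1 / 2) : ∃ A C : ℝ, 0 ≤ A ∧ 0 ≤ C ∧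
    ∀ (c : S.G) (s : ℂ), s.re = a → ‖S.GG c s‖ ≤ C * (1 + |s.im|) ^ A := by
  have h := fun c : S.G => hG.GG_bd c a a ha
  choose A C hA hC hb using h
  refine ⟨∑ c, A c, ∑ c, C c, Finset.sum_nonneg fun c _ => hA c,
    Finset.sum_nonneg fun c _ => hC c, ?_⟩
  intro c s hs
  have h1 : A c ≤ ∑ c, A c := Finset.single_le_sum (fun c _ => hA c) (Finset.mem_univ c)
  have h2 : C c ≤ ∑ c, C c := Finset.single_le_sum (fun c _ => hC c) (Finset.mem_univ c)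
  have h3 : (1 : ℝ) ≤ 1 + |s.im| := by linarith [abs_nonneg s.im]
  calc ‖S.GG c s‖ ≤ C c * (1 + |s.im|) ^ A c := hb c s (le_of_eq hs.symm) (le_of_eq hs)
    _ ≤ (∑ c, C c) * (1 + |s.im|) ^ (∑ c, A c) :=
        mul_le_mul h2 (Real.rpow_le_rpow_of_exponent_le h3 h1) (by positivity) ((hC c).trans h2)

/-- bound for `ell` in a strip -/
private theorem ell_bd (hS : IsSys0 S) (hG : IsKn S Kn) (B : ℝ) (hB : 0 ≤ B) : ∃ A C : ℝ, 0 ≤ A ∧ 0 ≤ C ∧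
    ∀ b c, S.R b c → c ∈ Kn → ∀ s : ℂ, |s.re| ≤ B →
      ‖S.ell b c s‖ ≤ C * (S.nJ b : ℝ) ^ (2 * (2 + B)) * (1 + |s.im|) ^ A := by
  obtain ⟨C1, hC1, h1⟩ := ell_right hS hG
  obtain ⟨A2, C2, hA2, hC2, h2⟩ := GG_left hS hG (-B - 1) (by linarith)
  obtain ⟨C3, hC3, h3⟩ := pl_poly (-B - 1) (B + 2) (by linarith) A2 hA2
  refine ⟨A2 + 1, C3 * (C1 * (C2 + 1)), by linarith, by positivity, ?_⟩
  intro b c hb hn s hs
  have hJ0 : 0 < S.nJ b := nJ_pos hS b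
  have hJ1 : (1 : ℝ) ≤ S.nJ b := by exact_mod_cast hJ0
  have ho0 : (0 : ℝ) < S.odd b := by exact_mod_cast odd_pos hS b
  have hoJ : (S.odd b : ℝ) ≤ S.nJ b := by exact_mod_cast odd_le hS b
  have hx1 : (1 : ℝ) ≤ (S.nJ b : ℝ) ^ (2 * (2 + B)) := Real.one_le_rpow hJ1 (by linarith)
  have hx0 : (0 : ℝ) ≤ (S.nJ b : ℝ) ^ (2 * (2 + B)) := le_trans zero_le_one hx1
  have hM0 : 0 ≤ C1 * (C2 + 1) * (S.nJ b : ℝ) ^ (2 * (2 + B)) := by positivity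
  have key := h3 (S.ell b c) (hG.ell_diff b c hb hn) (hG.ell_ord b c hb hn)
    (C1 * (C2 + 1) * (S.nJ b : ℝ) ^ (2 * (2 + B))) hM0 ?_ ?_ s
    (by linarith [(abs_le.mp hs).1]) (by linarith [(abs_le.mp hs).2])
  · calc ‖S.ell b c s‖ ≤ _ := key
      _ = _ := by ring
  · intro z hz
    have hy0 : (1 : ℝ) ≤ 1 + |z.im| := by linarith [abs_nonneg z.im]
    have hy1 : (1 : ℝ) ≤ (1 + |z.im|) ^ A2 := Real.one_le_rpow hy0 hA2
    rw [hG.ell_fe b c hb hn z (by rw [hz]; linarith), norm_mul, norm_mul]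
    have e1 : ‖(S.odd b : ℂ) ^ (2 * (1 - z))‖ = (S.odd b : ℝ) ^ (2 * (2 + B)) := by
      rw [Complex.norm_natCast_cpow_of_pos (odd_pos hS b)]
      congr 1
      simp [hz]
      ring
    have e2 : (S.odd b : ℝ) ^ (2 * (2 + B)) ≤ (S.nJ b : ℝ) ^ (2 * (2 + B)) :=
      Real.rpow_le_rpow ho0.le hoJ (by linarith)
    have e3 : ‖S.GG c z‖ ≤ C2 * (1 + |z.im|) ^ A2 := h2 c z hz
    have e4 : ‖S.ell b c (2 - z)‖ ≤ C1 := h1 b c hb hn (2 - z) (by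
      simp [hz]
      linarith)
    rw [e1]
    have e5 : 0 ≤ C2 * (1 + |z.im|) ^ A2 := by positivity
    calc (S.odd b : ℝ) ^ (2 * (2 + B)) * ‖S.GG c z‖ * ‖S.ell b c (2 - z)‖
        ≤ (S.nJ b : ℝ) ^ (2 * (2 + B)) * (C2 * (1 + |z.im|) ^ A2) * C1 :=
          mul_le_mul (mul_le_mul e2 e3 (norm_nonneg _) hx0) e4 (norm_nonneg _)
            (mul_nonneg hx0 e5)
      _ = C1 * C2 * ((S.nJ b : ℝ) ^ (2 * (2 + B)) * (1 + |z.im|) ^ A2) := by ring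
      _ ≤ C1 * (C2 + 1) * ((S.nJ b : ℝ) ^ (2 * (2 + B)) * (1 + |z.im|) ^ A2) := by
          apply mul_le_mul_of_nonneg_right _ (by positivity)
          apply mul_le_mul_of_nonneg_left _ hC1
          linarith
      _ = C1 * (C2 + 1) * (S.nJ b : ℝ) ^ (2 * (2 + B)) * (1 + |z.im|) ^ A2 := by ring
  · intro z hz
    have hy0 : (1 : ℝ) ≤ 1 + |z.im| := by linarith [abs_nonneg z.im]
    have hy1 : (1 : ℝ) ≤ (1 + |z.im|) ^ A2 := Real.one_le_rpow hy0 hA2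
    have e4 : ‖S.ell b c z‖ ≤ C1 := h1 b c hb hn z (by rw [hz]; linarith)
    have e6 : (1 : ℝ) ≤ (C2 + 1) * (S.nJ b : ℝ) ^ (2 * (2 + B)) * (1 + |z.im|) ^ A2 := by
      have : (1 : ℝ) ≤ C2 + 1 := by linarith
      exact one_le_mul_of_one_le_of_one_le (one_le_mul_of_one_le_of_one_le this hx1) hy1
    calc ‖S.ell b c z‖ ≤ C1 * 1 := by rw [mul_one]; exact e4
      _ ≤ C1 * ((C2 + 1) * (S.nJ b : ℝ) ^ (2 * (2 + B)) * (1 + |z.im|) ^ A2) :=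
          mul_le_mul_of_nonneg_left e6 hC1
      _ = C1 * (C2 + 1) * (S.nJ b : ℝ) ^ (2 * (2 + B)) * (1 + |z.im|) ^ A2 := by ring

theorem LL_bd (hS : IsSys0 S) (hG : IsKn S Kn) (B : ℝ) (hB : 0 ≤ B) : ∃ A C : ℝ, 0 ≤ A ∧ 0 ≤ C ∧
    ∀ b c, S.R b c → c ∈ Kn → ∀ s : ℂ, |s.re| ≤ B →
      ‖S.LL b c s‖ ≤ C * (S.nJ b : ℝ) ^ A * (1 + |s.im|) ^ A := by
  obtain ⟨A1, C1, hA1, hC1, h1⟩ := ell_bd hS hG B hB
  obtain ⟨A2, hA2, h2⟩ := P_bd hS B hB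
  refine ⟨2 * (2 + B) + A2 + A1, C1, by linarith, hC1, ?_⟩
  intro b c hb hn s hs
  have hJ0 : 0 < S.nJ b := nJ_pos hS b
  have hJp : (0 : ℝ) < S.nJ b := by exact_mod_cast hJ0
  have hJ1 : (1 : ℝ) ≤ S.nJ b := by exact_mod_cast hJ0
  have hy0 : (1 : ℝ) ≤ 1 + |s.im| := by linarith [abs_nonneg s.im]
  unfold LL
  rw [norm_mul]
  have e1 := h1 b c hb hn s hs
  have e2 := h2 b c hb s hs
  have e3 : (0 : ℝ) ≤ C1 * (S.nJ b : ℝ) ^ (2 * (2 + B)) * (1 + |s.im|) ^ A1 := by positivity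
  calc ‖S.ell b c s‖ * ‖S.P b c s‖
      ≤ C1 * (S.nJ b : ℝ) ^ (2 * (2 + B)) * (1 + |s.im|) ^ A1 * (S.nJ b : ℝ) ^ A2 :=
        mul_le_mul e1 e2 (norm_nonneg _) e3
    _ = C1 * ((S.nJ b : ℝ) ^ (2 * (2 + B) + A2)) * (1 + |s.im|) ^ A1 := by
        rw [Real.rpow_add hJp]
        ring
    _ ≤ C1 * (S.nJ b : ℝ) ^ (2 * (2 + B) + A2 + A1) *
          (1 + |s.im|) ^ (2 * (2 + B) + A2 + A1) := by
        apply mul_le_mul
        · apply mul_le_mul_of_nonneg_left _ hC1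
          exact Real.rpow_le_rpow_of_exponent_le hJ1 (by linarith)
        · exact Real.rpow_le_rpow_of_exponent_le hy0 (by linarith)
        · positivity
        · positivity

theorem LL_diff (hS : IsSys0 S) (hG : IsKn S Kn) (b : S.J) (c : S.G) (hb : S.R b c) (hn : c ∈ Kn) :
    Differentiable ℂ (S.LL b c) := by
  have h : S.LL b c = fun s => S.ell b c s * S.P b c s := rfl
  rw [h]
  exact (hG.ell_diff b c hb hn).mul (P_diff hS b c)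

theorem LL_fe (hS : IsSys0 S) (hG : IsKn S Kn) (b : S.J) (c : S.G) (hb : S.R b c) (hn : c ∈ Kn) {s : ℂ}
    (hs : s.re < 1 / 2) :
    S.LL b c s = (S.nJ b : ℂ) ^ (2 * (1 - s)) * S.GG c s * S.LL b c (2 - s) := by
  unfold LL
  rw [hG.ell_fe b c hb hn s hs]
  have h := P_fe hS b c hb s
  linear_combination (S.GG c s * S.ell b c (2 - s)) * h

end Pool.Agent.MD
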