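import Pool.Agent.MD.A.Defs

/-!
# MD/A-Cls: the classes `h * cl e p k`

PLAN.  `cl_mul`: `Finset.prod_mul_distrib`, and factorwise (16 cases of booleans) with `ex2` and
`mul_comm`: `e^a p^b * e^a' p^b' = e^(a+a') p^(b+b')` as `e * e = 1`, `p * p = 1`.  `cl_zero`: all factors are `1`.
`cl_inj`: `cl k = h * cl k'` with `h ∈ H` gives `cl (k xor k') = cl k * cl k' = h * (cl k' * cl k') = h ∈ H` (`ex2`), so
`hL.inj`: `xr (k i) (k' i) = (false, false)` for all `i`, so `k = k'`.
`sum_dec`: the map `(h, k) ↦ h * cl e p k` from `{h // h ∈ H} × (κ → LC)` to `S.G` is bijective (`dec`; injective: if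
`h cl k = h' cl k'` then `cl k = (h⁻¹ h') cl k'`, so `k = k'` by `cl_inj` and `h = h'`).  Write the right side as a sum over
this type (`Finset.sum_filter`, `Finset.sum_subtype`, `Fintype.sum_prod_type`, `Function.Bijective.sum_comp` or
`Fintype.sum_bijective`).
`coef`: `M_fac` for `g * h ∈ H` and `cl (ef ∘ f) * cl k = cl (xr ..)` (`cl_mul`):
`S.M (g * cl (ef ∘ f) * (h * cl k)) w = M0 (g * h) w * ∏ i, mloc (q i) (xr (ef (f i)) (k i)) w`; then
`∑ f, ∏ i, F i (f i) = ∏ i, ∑ b : Bool, F i b` (`Finset.prod_univ_sum` with `Fintype.piFinset_univ`; `Fintype.sum_bool`).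
-/

namespace Pool.Agent.MD

open Pool.Agent.QD Pool.Agent.QD.SysD Pool.Agent.LD

section Gen

variable {G : Type} [CommGroup G] {κ : Type} [Fintype κ] {e p : κ → G}

private theorem x1 (h2 : ∀ g : G, g * g = 1) (g : G) (a b : Bool) :
    (if a then g else 1) * (if b then g else 1) = if xor a b then g else 1 := by
  cases a <;> cases b <;> simp [h2]

theorem cl_mul (h2 : ∀ g : G, g * g = 1) (k k' : κ → LC) :
    cl e p k * cl e p k' = cl e p fun i => xr (k i) (k' i) := by
  unfold cl
  rw [← Finset.prod_mul_distrib]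
  refine Finset.prod_congr rfl fun i _ => ?_
  rw [mul_mul_mul_comm, x1 h2, x1 h2]
  rfl

theorem cl_zero : cl e p (fun _ => (false, false)) = 1 := by
  unfold cl
  simp

end Gen

variable {S : SysD} {H : Subgroup S.G} {Kn : Set S.G} {M0 : S.G → ℂ → ℂ} {κ : Type} [Fintype κ]
  [DecidableEq κ] {e p : κ → S.G} {q : κ → ℕ} {lam : κ → ℝ}

theorem cl_inj (hL : IsLocs S H Kn M0 e p q lam) {k k' : κ → LC} {h : S.G} (hh : h ∈ H)
    (hk : cl e p k = h * cl e p k') : k = k' := by
  have h1 : cl e p (fun i => xr (k i) (k' i)) = h := by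
    rw [← cl_mul hL.ex2, hk, mul_assoc, hL.ex2, mul_one]
  have h2 := hL.inj _ (h1 ▸ hh)
  funext i
  have h3 := congrFun h2 i
  have h4 : xr (k i) (k' i) = (false, false) := h3
  generalize k i = a at h4 ⊢
  generalize k' i = b at h4 ⊢
  revert h4
  revert a b
  unfold xr
  decide

open Classical in
theorem sum_dec (hL : IsLocs S H Kn M0 e p q lam) (F : S.G → ℂ) :
    ∑ c : S.G, F c = ∑ h : S.G, if h ∈ H then ∑ k : κ → LC, F (h * cl e p k) else 0 := by
  rw [← Finset.sum_filter, Finset.sum_sigma' , eq_comm]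
  refine Finset.sum_bij (fun x _ => x.1 * cl e p x.2) (fun _ _ => Finset.mem_univ _) ?_ ?_
    (fun _ _ => rfl)
  · rintro ⟨h, k⟩ hx ⟨h', k'⟩ hx' hxx
    have e1 : h ∈ H := by simpa using hx
    have e2 : h' ∈ H := by simpa using hx'
    have e3 : h * cl e p k = h' * cl e p k' := hxx
    have e4 : cl e p k = h⁻¹ * h' * cl e p k' := by
      rw [mul_assoc, ← e3, inv_mul_cancel_left]
    have e5 : k = k' := cl_inj hL (H.mul_mem (H.inv_mem e1) e2) e4
    subst e5
    have e6 : h = h' := mul_right_cancel e3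
    subst e6
    rfl
  · intro c _
    obtain ⟨h, hh, k, hc⟩ := hL.dec c
    exact ⟨⟨h, k⟩, by simpa using hh, hc.symm⟩

/-- the known classes -/
theorem kn_ef (hL : IsLocs S H Kn M0 e p q lam) {g : S.G} (hg : g ∈ H) (f : κ → Bool) :
    (g * cl e p fun i => ef (f i)) ∈ Kn := by
  rw [hL.Kn_iff g hg]
  intro i
  unfold ef
  cases f i <;> simp

/-- a sum over all choices of `e` or `p` at every place -/
theorem coef (hL : IsLocs S H Kn M0 e p q lam) {g h : S.G} (hg : g ∈ H) (hh : h ∈ H)
    (k : κ → LC) {w : ℂ} (hw : w.re < 0) (x y : κ → ℂ) :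
    ∑ f : κ → Bool, (∏ i, if f i then x i else y i) *
      S.M (g * (cl e p fun i => ef (f i)) * (h * cl e p k)) w =
    M0 (g * h) w * ∏ i, (x i * mloc (q i) (xr (true, false) (k i)) w +
      y i * mloc (q i) (xr (false, true) (k i)) w) := by
  have h1 : ∀ f : κ → Bool, (∏ i, if f i then x i else y i) *
      S.M (g * (cl e p fun i => ef (f i)) * (h * cl e p k)) w =
      M0 (g * h) w * ∏ i, ((if f i then x i else y i) *
        mloc (q i) (xr (ef (f i)) (k i)) w) := by
    intro f
    have h2 : g * (cl e p fun i => ef (f i)) * (h * cl e p k) =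
        g * h * cl e p (fun i => xr (ef (f i)) (k i)) := by
      rw [mul_mul_mul_comm, cl_mul hL.ex2]
    rw [h2, hL.M_fac (g * h) (H.mul_mem hg hh) _ w hw, Finset.prod_mul_distrib]
    ring
  have h3 : ∀ i : κ, ∑ b : Bool, ((if b then x i else y i) *
      mloc (q i) (xr (ef b) (k i)) w) = x i * mloc (q i) (xr (true, false) (k i)) w +
      y i * mloc (q i) (xr (false, true) (k i)) w := by
    intro i
    rw [Fintype.sum_bool]
    simp [ef]
  rw [Finset.sum_congr rfl fun f _ => h1 f, ← Finset.mul_sum]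
  congr 1
  rw [← Finset.prod_congr rfl fun i _ => h3 i]
  rw [Finset.prod_univ_sum, Fintype.piFinset_univ]

end Pool.Agent.MD
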