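import Pool.Agent.LD.A.Kf2
import Pool.Agent.LD.A.Dfac

/-!
# MD/A, the abstract system with several auxiliary places: definitions (see `md_paper.md`)

`S : SysD` is the system of QD (double Dirichlet series of quadratic twists), `Kn` a set of classes
(the known ones: the classes which are not local squares at any of the places of a finite set
`V`); the L-functions are only known to continue for the classes in `Kn`.
-/

namespace Pool.Agent.MD

open Pool.Agent.QD Pool.Agent.QD.SysD Pool.Agent.LD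
open Pool.Agent.HWR (FinOrd)

/-- The L-functions of the classes in `Kn`. -/
structure IsKn (S : SysD) (Kn : Set S.G) : Prop where
  ell_diff : ∀ b c, S.R b c → c ∈ Kn → Differentiable ℂ (S.ell b c)
  ell_ord : ∀ b c, S.R b c → c ∈ Kn → FinOrd (S.ell b c)
  ell_eq : ∀ b c, S.R b c → c ∈ Kn → ∀ s : ℂ, 3 / 2 < s.re → S.ell b c s = S.Ls s * S.Lu b c s
  ell_fe : ∀ b c, S.R b c → c ∈ Kn → ∀ s : ℂ, s.re < 1 / 2 → S.ell b c s =
    (S.odd b : ℂ) ^ (2 * (1 - s)) * S.GG c s * S.ell b c (2 - s)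
  GG_diff : ∀ c, DifferentiableOn ℂ (S.GG c) {s : ℂ | s.re < 1 / 2}
  GG_bd : ∀ c, PolyStrip (1 / 2) (S.GG c)
  /-- on the lines `Re s = n + 1/2`, `n` large, the factor `GG c (2 - s)` is invertible -/
  GG_inv : ∀ c, ∃ n0 : ℕ, ∀ n : ℕ, n0 ≤ n → ∃ A C : ℝ, 0 ≤ A ∧ 0 ≤ C ∧ ∀ s : ℂ,
    s.re = n + 1 / 2 → S.GG c (2 - s) ≠ 0 ∧ ‖(S.GG c (2 - s))⁻¹‖ ≤ C * (1 + |s.im|) ^ A

/-! ### Local classes -/

/-- the local classes at one place: exponents of `e` (nonsquare unit) and `p` (uniformizer) -/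
abbrev LC : Type := Bool × Bool

/-- the product of two local classes -/
def xr (a b : LC) : LC := (xor a.1 b.1, xor a.2 b.2)

/-- the classes `e` and `p` -/
def ef (f : Bool) : LC := (f, !f)

section Cl

variable {G : Type} [CommGroup G] {κ : Type} [Fintype κ] (e p : κ → G)

/-- the class with given exponents -/
def cl (k : κ → LC) : G := ∏ i, ((if (k i).1 then e i else 1) * (if (k i).2 then p i else 1))

end Cl

/-- `- √q (1 - q^(w - 3/2)) (1 + q^(w - 1/2)) (1 - q^(w - 1/2))⁻¹` -/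
noncomputable def r0 (q : ℕ) (w : ℂ) : ℂ :=
  -((Real.sqrt q : ℂ) * (1 - (q : ℂ) ^ (w - 3 / 2)) * (1 + (q : ℂ) ^ (w - 1 / 2)) *
    (1 - (q : ℂ) ^ (w - 1 / 2))⁻¹)

/-- the local scattering coefficients, normalised -/
noncomputable def mloc (q : ℕ) (k : LC) (w : ℂ) : ℂ :=
  if k.2 then r2 q w else if k.1 then r1 q w else r0 q w

/-- the two factors in the relation between `GG (h e)` and `GG (h p)` -/
noncomputable def ka (q : ℕ) (lam : ℝ) (s : ℂ) : ℂ :=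
  1 + (lam : ℂ) * (q : ℂ) ^ (1 - s) + (q : ℂ) ^ (3 - 2 * s)

noncomputable def kb (q : ℕ) (lam : ℝ) (s : ℂ) : ℂ :=
  (q : ℂ) * (1 + (lam : ℂ) * (q : ℂ) ^ (-s) + (q : ℂ) ^ (1 - 2 * s))

open Classical in
/-- The local structure at the auxiliary places, indexed by `κ`: `q i` the norm, `lam i = a_(v_i)`; `H` is
the subgroup of the classes which are trivial at all the places, `e i` is the class of a nonsquare unit at
`v_i`, `p i` of a uniformizer, both trivial at the other places. -/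
structure IsLocs (S : SysD) (H : Subgroup S.G) (Kn : Set S.G) (M0 : S.G → ℂ → ℂ) {κ : Type}
    [Fintype κ] (e p : κ → S.G) (q : κ → ℕ) (lam : κ → ℝ) : Prop where
  hq : ∀ i, 101 ≤ q i
  hl : ∀ i, |lam i| ≤ 2 * Real.sqrt (q i)
  ex2 : ∀ g : S.G, g * g = 1
  dec : ∀ c : S.G, ∃ h ∈ H, ∃ k : κ → LC, c = h * cl e p k
  inj : ∀ k : κ → LC, cl e p k ∈ H → k = fun _ => (false, false)
  Kn_iff : ∀ h ∈ H, ∀ k : κ → LC, h * cl e p k ∈ Kn ↔ ∀ i, k i ≠ (false, false)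
  M_fac : ∀ h ∈ H, ∀ (k : κ → LC) (w : ℂ), w.re < 0 →
    S.M (h * cl e p k) w = M0 h w * ∏ i, mloc (q i) (k i) w
  /-- the matrix `M0 (g h) (g, h ∈ H)` is invertible up to a polynomial -/
  M_inv : ∀ X : ℝ, 0 < X → ∃ (P : Polynomial ℂ) (Nf : S.G → ℂ → ℂ), P ≠ 0 ∧
    (∀ g, DifferentiableOn ℂ (Nf g) {w : ℂ | -X < w.re ∧ w.re < 0}) ∧
    (∀ (g : S.G) (a b : ℝ), -X < a → b < 0 → ∃ A C : ℝ, 0 ≤ A ∧ 0 ≤ C ∧ ∀ w : ℂ, a ≤ w.re →
      w.re ≤ b → ‖Nf g w‖ ≤ C * (1 + |w.im|) ^ A) ∧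
    ∀ h ∈ H, ∀ w : ℂ, -X < w.re → w.re < 0 →
      ∑ g : S.G, (if g ∈ H then Nf g w * M0 (g * h) w else 0) = if h = 1 then P.eval w else 0
  GG_rel : ∀ h ∈ H, ∀ (f : κ → Bool) (s : ℂ), s.re < 1 / 2 →
    S.GG (h * cl e p fun i => ef (f i)) s * (∏ i, if f i then ka (q i) (lam i) s else 1) =
      S.GG (h * cl e p fun _ => ef false) s * (∏ i, if f i then kb (q i) (lam i) s else 1)
  sep : ∀ k : κ → LC, k ≠ (fun _ => (false, false)) → ∀ b : S.J, S.R b (cl e p k) →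
    101 * ∏ i, q i ≤ S.nJ b

/-- The continuations of the series of the classes in `Kn` to `Re t > R`. -/
structure IsY (S : SysD) (Kn : Set S.G) (R : ℝ) (Y : S.G → ℂ → ℂ → ℂ) : Prop where
  hol : ∀ c, c ∈ Kn → Hol2 {x | R < x.2.re} (Y c)
  bd : ∀ c, c ∈ Kn → ∀ a b c' d : ℝ, R < c' → PB (Y c) a b c' d
  eq : ∀ c, c ∈ Kn → ∀ s t : ℂ, R < s.re → R < t.re → Y c s t = YR S c s t
  fe : ∀ c, c ∈ Kn → ∀ s t : ℂ, s.re < 1 / 2 → R < t.re → Y c s t = S.GG c s * Y c (2 - s) t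

end Pool.Agent.MD
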