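import Pool.Agent.MD.A.Defs
import Pool.Agent.LD.A.Gexp

/-!
# MD/A-Gqc: the normalised series of a class all of whose ideals have large norm

PLAN (adapt LD/A/Gexp.lean: `Gq_diff`, `Gq_lim`, `gx_rest`; the helpers there are private, copy what is needed).
`Gqc_one`: `rfl`-like (`Gq S s t = YR S 1 t s / ..`).  `Gqc_diff`: as `Gq_diff` with the class `c` (`YR_reg hS` is for all classes).
`Gqc_bd`: `YR S c t s = Ls t * Ls s * ((w' - 1)^2 Z1 w') * FF S c t s`, `w' = wp t s = wp s t`, `w~ = ww t s = s - t + 1/2`; `DD_eq`,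
`fubini_D` (LD/A/Dbl): `FF S c t s = (w~ - 1)^2 Z1 w~ ∑' b, if R b c then AA b c t * nJ b^(-w~) else 0`, so
`Gqc = Ls t * Ls s * Z1 w' * Z1 w~ * ∑' ..` (`w~ ≠ 1`, `w' ≠ 1`).  `Ls_bd`, `Z1_bd` (LD/A/Euler) bound the first factors by a constant.
For `R b c` we have `nJ b ≥ Q`, so `‖nJ b^(-w~)‖ ≤ Q^(-(Re w~ - 2)) nJ b^(-2)` (`Re w~ ≥ 2`), and `AA_summable_b` (LD/A/Dbl) at `w = 2` gives
`‖∑'‖ ≤ K Q^(2 - Re w~) = K Q^(2 + Re t - 1/2) Q^(-Re s)`.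
-/

namespace Pool.Agent.MD

open Pool.Agent.QD Pool.Agent.QD.SysD Pool.Agent.LD

/-- the normalised series of a class -/
noncomputable def Gqc (S : SysD) (c : S.G) (s t : ℂ) : ℂ :=
  YR S c t s / ((wp s t - 1) ^ 2 * (ww t s - 1) ^ 2)

variable {S : SysD}

private theorem gq_re1 (s t : ℂ) : (wp s t).re = t.re + s.re - 3 / 2 := by
  unfold wp
  simp

private theorem gq_re2 (s t : ℂ) : (ww t s).re = s.re - t.re + 1 / 2 := by
  unfold ww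
  simp

private theorem gq_ne {z : ℂ} (h : 1 < z.re) : z - 1 ≠ 0 := by
  intro h0
  have h2 := congrArg Complex.re h0
  rw [Complex.sub_re, Complex.one_re, Complex.zero_re] at h2
  linarith

theorem Gqc_one (s t : ℂ) : Gqc S 1 s t = Gq S s t := rfl

theorem Gqc_diff (hS : IsSys0 S) : ∃ A2 : ℝ, 6 ≤ A2 ∧ ∀ (c : S.G) (t : ℂ), A2 < t.re →
    DifferentiableOn ℂ (fun s => Gqc S c s t) {s : ℂ | t.re + A2 < s.re} := by
  obtain ⟨A0, hA0, hY⟩ := YR_reg hS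
  refine ⟨A0, hA0, fun c t ht s hs => ?_⟩
  have hs' : t.re + A0 < s.re := hs
  have h1 := (hY c).1 (fun _ => t) (fun z => z) (differentiable_const t) differentiable_id s
    (show A0 < t.re ∧ A0 < s.re from ⟨ht, by linarith⟩)
  have n1 : wp s t - 1 ≠ 0 := gq_ne (by rw [gq_re1]; linarith)
  have n2 : ww t s - 1 ≠ 0 := gq_ne (by rw [gq_re2]; linarith)
  refine DifferentiableAt.differentiableWithinAt ?_
  unfold Gqc
  refine h1.div ?_ (mul_ne_zero (pow_ne_zero 2 n1) (pow_ne_zero 2 n2))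
  unfold wp ww
  fun_prop

open Classical in
/-- the series is small -/
private theorem gq_ser (hS : IsSys0 S) (c : S.G) {Q : ℕ} (hQ : 1 ≤ Q)
    (hb : ∀ b : S.J, S.R b c → Q ≤ S.nJ b) {t : ℂ} (ht : 6 < t.re) : ∃ K : ℝ, 0 ≤ K ∧ ∀ w : ℂ,
    2 ≤ w.re → ‖∑' b : S.J, if S.R b c then S.AA b c t * (S.nJ b : ℂ) ^ (-w) else 0‖ ≤
      K * (Q : ℝ) ^ (2 - w.re) := by
  have hs2 := AA_summable_b hS c (s := t) (w := 2) ht.le (by norm_num)
  have hn2 := hs2.norm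
  refine ⟨∑' b : S.J, ‖if S.R b c then S.AA b c t * (S.nJ b : ℂ) ^ (-(2 : ℂ)) else 0‖,
    tsum_nonneg fun _ => norm_nonneg _, fun w hw => ?_⟩
  have hQ0 : (0 : ℝ) < Q := by exact_mod_cast hQ
  have hterm : ∀ b : S.J, ‖if S.R b c then S.AA b c t * (S.nJ b : ℂ) ^ (-w) else 0‖ ≤
      (Q : ℝ) ^ (2 - w.re) *
        ‖if S.R b c then S.AA b c t * (S.nJ b : ℂ) ^ (-(2 : ℂ)) else 0‖ := by
    intro b
    by_cases hR : S.R b c
    · rw [if_pos hR, if_pos hR, norm_mul, norm_mul, nJ_cpow_norm hS, nJ_cpow_norm hS]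
      have hN : (Q : ℝ) ≤ S.nJ b := by exact_mod_cast hb b hR
      have hN0 : (0 : ℝ) < S.nJ b := lt_of_lt_of_le hQ0 hN
      have e1 : (-w).re = -w.re := by simp
      have e2 : (-(2 : ℂ)).re = -(2 : ℝ) := by simp
      rw [e1, e2]
      have h1 : (S.nJ b : ℝ) ^ (-w.re) ≤ (Q : ℝ) ^ (2 - w.re) * (S.nJ b : ℝ) ^ (-(2 : ℝ)) := by
        have e : (S.nJ b : ℝ) ^ (-w.re) = (S.nJ b : ℝ) ^ (2 - w.re) * (S.nJ b : ℝ) ^ (-(2 : ℝ)) := by
          rw [← Real.rpow_add hN0]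
          congr 1
          ring
        rw [e]
        exact mul_le_mul_of_nonneg_right (Real.rpow_le_rpow_of_nonpos hQ0 hN (by linarith))
          (by positivity)
      calc ‖S.AA b c t‖ * (S.nJ b : ℝ) ^ (-w.re)
          ≤ ‖S.AA b c t‖ * ((Q : ℝ) ^ (2 - w.re) * (S.nJ b : ℝ) ^ (-(2 : ℝ))) :=
            mul_le_mul_of_nonneg_left h1 (norm_nonneg _)
        _ = (Q : ℝ) ^ (2 - w.re) * (‖S.AA b c t‖ * (S.nJ b : ℝ) ^ (-(2 : ℝ))) := by ring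
    · rw [if_neg hR, if_neg hR, norm_zero, mul_zero]
  have h1 := tsum_of_norm_bounded (hn2.mul_left ((Q : ℝ) ^ (2 - w.re))).hasSum hterm
  rw [tsum_mul_left] at h1
  rw [mul_comm]
  exact h1

theorem Gqc_bd (hS : IsSys0 S) : ∃ A2 : ℝ, 6 ≤ A2 ∧ ∀ (c : S.G) (Q : ℕ), 1 ≤ Q →
    (∀ b : S.J, S.R b c → Q ≤ S.nJ b) → ∀ t : ℂ, A2 < t.re →
    ∃ C : ℝ, 0 ≤ C ∧ ∀ s : ℂ, t.re + A2 < s.re → ‖Gqc S c s t‖ ≤ C * (Q : ℝ) ^ (-s.re) := by
  classical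
  obtain ⟨K1, hK1, hZ⟩ := Z1_bd hS (c := 2) (by norm_num)
  obtain ⟨K2, hK2, hL⟩ := Ls_bd hS (c := 5 / 2) (by norm_num)
  refine ⟨6, le_rfl, fun c Q hQ hb t ht => ?_⟩
  obtain ⟨K3, hK3, hR⟩ := gq_ser hS c hQ hb ht
  have hQ0 : (0 : ℝ) < Q := by exact_mod_cast hQ
  refine ⟨‖S.Ls t‖ * (K2 * K1 * K1 * (K3 * (Q : ℝ) ^ (t.re + 3 / 2))), by positivity, fun s hs => ?_⟩
  have n1 : wp s t - 1 ≠ 0 := gq_ne (by rw [gq_re1]; linarith)
  have n2 : ww t s - 1 ≠ 0 := gq_ne (by rw [gq_re2]; linarith)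
  have hw1 : 1 < (ww t s).re := by
    rw [gq_re2]
    linarith
  have e1' : wp t s = wp s t := by
    unfold wp
    ring
  have hFF : FF S c t s = (ww t s - 1) ^ 2 * S.Z1 (ww t s) *
      ∑' b : S.J, if S.R b c then S.AA b c t * (S.nJ b : ℂ) ^ (-(ww t s)) else 0 := by
    rw [← fubini_D hS c ht.le hw1, ← tsum_mul_left]
    unfold FF
    refine tsum_congr fun m => ?_
    rw [DD_eq hS m c hw1]
    ring
  have b3 := hR (ww t s) (by rw [gq_re2]; linarith)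
  generalize (∑' b : S.J, if S.R b c then S.AA b c t * (S.nJ b : ℂ) ^ (-(ww t s)) else 0) = X
    at hFF b3
  have hG : Gqc S c s t = S.Ls t * (S.Ls s * S.Z1 (wp s t) * S.Z1 (ww t s) * X) := by
    unfold Gqc YR Pi2
    rw [hFF, e1']
    field_simp
  have b0 : ‖S.Ls s‖ ≤ K2 := hL s (by linarith)
  have b1 : ‖S.Z1 (wp s t)‖ ≤ K1 := hZ _ (by rw [gq_re1]; linarith)
  have b2 : ‖S.Z1 (ww t s)‖ ≤ K1 := hZ _ (by rw [gq_re2]; linarith)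
  have e4 : (Q : ℝ) ^ (2 - (ww t s).re) = (Q : ℝ) ^ (t.re + 3 / 2) * (Q : ℝ) ^ (-s.re) := by
    rw [← Real.rpow_add hQ0, gq_re2]
    congr 1
    ring
  rw [e4] at b3
  rw [hG, norm_mul, norm_mul, norm_mul, norm_mul]
  calc ‖S.Ls t‖ * (‖S.Ls s‖ * ‖S.Z1 (wp s t)‖ * ‖S.Z1 (ww t s)‖ * ‖X‖)
      ≤ ‖S.Ls t‖ * (K2 * K1 * K1 * (K3 * ((Q : ℝ) ^ (t.re + 3 / 2) * (Q : ℝ) ^ (-s.re)))) := by
        refine mul_le_mul_of_nonneg_left ?_ (norm_nonneg _)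
        refine mul_le_mul (mul_le_mul (mul_le_mul b0 b1 (norm_nonneg _) hK2) b2 (norm_nonneg _)
          (by positivity)) b3 (norm_nonneg _) (by positivity)
    _ = ‖S.Ls t‖ * (K2 * K1 * K1 * (K3 * (Q : ℝ) ^ (t.re + 3 / 2))) * (Q : ℝ) ^ (-s.re) := by ring

end Pool.Agent.MD
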