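import Pool.Agent.MD.A.Defs

/-!
# MD/A-Nu: the local factors of the extraction

`nd` is the factor of the determinant which depends on `s` only (`dfac q lam s t = nd q s * (q^t * Lam q lam t)`).

`nu_mul` is the determinant identity of LD/A/Dfac; the bounds follow from explicit powers of `q`.
-/

namespace Pool.Agent.MD

open Pool.Agent.QD Pool.Agent.QD.SysD Pool.Agent.LD

/-- the factor of the determinant which depends on `s` -/
noncomputable def nd (q : ℕ) (s : ℂ) : ℂ :=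
  (Real.sqrt q : ℂ) * ((q : ℂ) - 1) * (((q : ℂ) ^ 2)⁻¹ - (q : ℂ) ^ (2 * (s - 2)))

/-- the local factor of the class `k` -/
noncomputable def nu (q : ℕ) (lam : ℝ) (k : LC) (s t : ℂ) : ℂ :=
  if k = (false, false) then Lam q lam t else
    (nd q s * (q : ℂ) ^ t)⁻¹ *
      (r2 q (wp s t) * kb q lam (2 - s) * mloc q (xr (true, false) k) (ww s t) -
        r1 q (wp s t) * ka q lam (2 - s) * mloc q (xr (false, true) k) (ww s t))

private theorem nu_cpow {q : ℕ} (hq : 101 ≤ q) {f : ℂ → ℂ} {z : ℂ} (hf : DifferentiableAt ℂ f z) :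
    DifferentiableAt ℂ (fun z => (q : ℂ) ^ (f z)) z := by
  have hq0 : (q : ℂ) ≠ 0 := by
    have : q ≠ 0 := by omega
    exact_mod_cast this
  exact hf.const_cpow (Or.inl hq0)

private theorem nu_norm {q : ℕ} (hq : 101 ≤ q) (z : ℂ) : ‖(q : ℂ) ^ z‖ = (q : ℝ) ^ z.re :=
  Complex.norm_natCast_cpow_of_pos (by omega) z

private theorem nd_aux {q : ℕ} (hq : 101 ≤ q) {s : ℂ} (hs : 3 ≤ s.re) :
    (101 : ℝ) ≤ (q : ℝ) ^ (2 * s.re - 4) ∧ (q : ℝ) ^ (2 * s.re - 4) - 1 ≤ ‖nd q s‖ := by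
  have hqr : (101 : ℝ) ≤ q := by exact_mod_cast hq
  have h1 : ‖(q : ℂ) ^ (2 * (s - 2))‖ = (q : ℝ) ^ (2 * s.re - 4) := by
    rw [nu_norm hq]
    congr 1
    simp only [Complex.mul_re, Complex.sub_re, Complex.re_ofNat, Complex.im_ofNat]
    ring
  have h2 : (101 : ℝ) ≤ (q : ℝ) ^ (2 * s.re - 4) := by
    calc (101 : ℝ) ≤ q := hqr
      _ = (q : ℝ) ^ (1 : ℝ) := (Real.rpow_one _).symm
      _ ≤ (q : ℝ) ^ (2 * s.re - 4) :=
          Real.rpow_le_rpow_of_exponent_le (by linarith) (by linarith)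
  have h3 : ‖((q : ℂ) ^ 2)⁻¹‖ ≤ 1 := by
    rw [norm_inv, norm_pow, Complex.norm_natCast]
    refine inv_le_one_of_one_le₀ ?_
    nlinarith
  have h4 : (q : ℝ) ^ (2 * s.re - 4) - 1 ≤ ‖((q : ℂ) ^ 2)⁻¹ - (q : ℂ) ^ (2 * (s - 2))‖ := by
    have h5 := norm_sub_norm_le ((q : ℂ) ^ (2 * (s - 2))) (((q : ℂ) ^ 2)⁻¹)
    rw [norm_sub_rev, h1] at h5
    linarith
  have h5 : (1 : ℝ) ≤ ‖(Real.sqrt q : ℂ)‖ := by
    rw [Complex.norm_real, Real.norm_of_nonneg (Real.sqrt_nonneg _)]
    rw [Real.one_le_sqrt]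
    linarith
  have h6 : (1 : ℝ) ≤ ‖(q : ℂ) - 1‖ := by
    have h7 : ((q : ℂ) - 1) = (((q : ℝ) - 1 : ℝ) : ℂ) := by push_cast; ring
    rw [h7, Complex.norm_real, Real.norm_of_nonneg (by linarith)]
    linarith
  refine ⟨h2, ?_⟩
  unfold nd
  rw [norm_mul, norm_mul]
  have h8 : (1 : ℝ) ≤ ‖(Real.sqrt q : ℂ)‖ * ‖(q : ℂ) - 1‖ := by nlinarith
  have h9 : 0 ≤ ‖((q : ℂ) ^ 2)⁻¹ - (q : ℂ) ^ (2 * (s - 2))‖ := norm_nonneg _
  have h10 : 1 * ‖((q : ℂ) ^ 2)⁻¹ - (q : ℂ) ^ (2 * (s - 2))‖ ≤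
      ‖(Real.sqrt q : ℂ)‖ * ‖(q : ℂ) - 1‖ * ‖((q : ℂ) ^ 2)⁻¹ - (q : ℂ) ^ (2 * (s - 2))‖ :=
    mul_le_mul_of_nonneg_right h8 h9
  linarith

theorem nd_norm {q : ℕ} (hq : 101 ≤ q) {s : ℂ} (hs : 3 ≤ s.re) : 1 ≤ ‖nd q s‖ := by
  have h := nd_aux hq hs
  linarith

private theorem nu_kb (q : ℕ) (lam : ℝ) (s : ℂ) : kb q lam (2 - s) = kap1 q lam s := by
  unfold kb kap1
  have e1 : -(2 - s) = s - 2 := by ring
  have e2 : 1 - 2 * (2 - s) = 2 * s - 3 := by ring
  rw [e1, e2]

private theorem nu_ka (q : ℕ) (lam : ℝ) (s : ℂ) : ka q lam (2 - s) = kap2 q lam s := by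
  unfold ka kap2
  have e1 : 1 - (2 - s) = s - 1 := by ring
  have e2 : 3 - 2 * (2 - s) = 2 * s - 1 := by ring
  rw [e1, e2]

/-- the small power -/
private theorem nu_small {q : ℕ} (hq : 101 ≤ q) {w : ℂ} (hw : w.re < 0) :
    ‖(q : ℂ) ^ (w - 1 / 2)‖ ≤ 1 / 2 ∧ ‖(q : ℂ) ^ (w - 3 / 2)‖ ≤ 1 := by
  have hqr : (101 : ℝ) ≤ q := by exact_mod_cast hq
  constructor
  · rw [nu_norm hq]
    have h1 : (w - 1 / 2).re ≤ -(1 / 2 : ℝ) := by
      rw [Complex.sub_re]
      norm_num
      linarith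
    have h2 : (q : ℝ) ^ (w - 1 / 2).re ≤ (q : ℝ) ^ (-(1 / 2 : ℝ)) :=
      Real.rpow_le_rpow_of_exponent_le (by linarith) h1
    refine h2.trans ?_
    rw [Real.rpow_neg (by linarith), ← Real.sqrt_eq_rpow]
    have h3 : 2 ≤ Real.sqrt q := Real.le_sqrt_of_sq_le (by linarith)
    rw [← one_div]
    exact one_div_le_one_div_of_le (by norm_num) h3
  · rw [nu_norm hq]
    refine Real.rpow_le_one_of_one_le_of_nonpos (by linarith) ?_
    rw [Complex.sub_re]
    norm_num
    linarith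

private theorem nu_ne {q : ℕ} (hq : 101 ≤ q) {w : ℂ} (hw : w.re < 0) :
    1 - (q : ℂ) ^ (w - 1 / 2) ≠ 0 ∧ ‖(1 - (q : ℂ) ^ (w - 1 / 2))⁻¹‖ ≤ 2 := by
  have h1 := (nu_small hq hw).1
  have h2 : 1 / 2 ≤ ‖1 - (q : ℂ) ^ (w - 1 / 2)‖ := by
    have h3 := norm_sub_norm_le (1 : ℂ) ((q : ℂ) ^ (w - 1 / 2))
    rw [norm_one] at h3
    linarith
  have h3 : 0 < ‖1 - (q : ℂ) ^ (w - 1 / 2)‖ := by linarith
  refine ⟨norm_pos_iff.1 h3, ?_⟩
  rw [norm_inv]
  have h4 := inv_anti₀ (by norm_num : (0 : ℝ) < 1 / 2) h2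
  have h5 : ((1 : ℝ) / 2)⁻¹ = 2 := by norm_num
  rw [h5] at h4
  exact h4

private theorem nu_mdiff {q : ℕ} (hq : 101 ≤ q) (k : LC) {w : ℂ} (hw : w.re < 0) :
    DifferentiableAt ℂ (mloc q k) w := by
  have h1 : DifferentiableAt ℂ (fun w : ℂ => (q : ℂ) ^ (w - 3 / 2)) w :=
    nu_cpow hq (f := fun w : ℂ => w - 3 / 2) (by fun_prop)
  have h2 : DifferentiableAt ℂ (fun w : ℂ => (q : ℂ) ^ (w - 1 / 2)) w :=
    nu_cpow hq (f := fun w : ℂ => w - 1 / 2) (by fun_prop)
  have e : mloc q k = fun w => if k.2 then r2 q w else if k.1 then r1 q w else r0 q w := rfl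
  rw [e]
  by_cases hk2 : k.2 = true
  · simp only [hk2, if_true]
    unfold r2
    exact (differentiableAt_const _).add h2
  · by_cases hk1 : k.1 = true
    · simp only [hk2, hk1, if_true, if_false, Bool.false_eq_true]
      unfold r1
      exact ((differentiableAt_const _).add h1).const_mul _
    · simp only [hk2, hk1, if_false, Bool.false_eq_true]
      unfold r0
      exact ((((((differentiableAt_const _).sub h1).const_mul _).mul
        ((differentiableAt_const _).add h2)).mul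
        (((differentiableAt_const _).sub h2).inv (nu_ne hq hw).1))).neg

private theorem nu_mbd {q : ℕ} (hq : 101 ≤ q) (k : LC) {w : ℂ} (hw : w.re < 0) :
    ‖mloc q k w‖ ≤ 8 * Real.sqrt q := by
  have hqr : (101 : ℝ) ≤ q := by exact_mod_cast hq
  have hs1 : 1 ≤ Real.sqrt q := by
    rw [Real.one_le_sqrt]
    linarith
  obtain ⟨h1, h2⟩ := nu_small hq hw
  have hsn : ‖(Real.sqrt q : ℂ)‖ = Real.sqrt q := by
    rw [Complex.norm_real, Real.norm_of_nonneg (Real.sqrt_nonneg _)]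
  have a1 : ‖1 + (q : ℂ) ^ (w - 1 / 2)‖ ≤ 2 := by
    refine (norm_add_le _ _).trans ?_
    rw [norm_one]
    linarith
  have a2 : ‖1 + (q : ℂ) ^ (w - 3 / 2)‖ ≤ 2 := by
    refine (norm_add_le _ _).trans ?_
    rw [norm_one]
    linarith
  have a3 : ‖1 - (q : ℂ) ^ (w - 3 / 2)‖ ≤ 2 := by
    refine (norm_sub_le _ _).trans ?_
    rw [norm_one]
    linarith
  unfold mloc
  by_cases hk2 : k.2 = true
  · rw [if_pos hk2]
    unfold r2
    linarith
  · rw [if_neg hk2]
    by_cases hk1 : k.1 = true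
    · rw [if_pos hk1]
      unfold r1
      rw [norm_mul, hsn]
      have : Real.sqrt q * ‖1 + (q : ℂ) ^ (w - 3 / 2)‖ ≤ Real.sqrt q * 2 :=
        mul_le_mul_of_nonneg_left a2 (Real.sqrt_nonneg _)
      linarith
    · rw [if_neg hk1]
      unfold r0
      rw [norm_neg, norm_mul, norm_mul, norm_mul, hsn]
      calc Real.sqrt q * ‖1 - (q : ℂ) ^ (w - 3 / 2)‖ * ‖1 + (q : ℂ) ^ (w - 1 / 2)‖ *
            ‖(1 - (q : ℂ) ^ (w - 1 / 2))⁻¹‖ ≤ Real.sqrt q * 2 * 2 * 2 := by
            have := (nu_ne hq hw).2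
            gcongr
        _ = 8 * Real.sqrt q := by ring

private theorem nu_ww {s t : ℂ} (h : t.re + 3 < s.re) : (ww s t).re < 0 := by
  unfold ww
  rw [Complex.add_re, Complex.sub_re]
  norm_num
  linarith

theorem nu_mul {q : ℕ} (hq : 101 ≤ q) (lam : ℝ) (k : LC) {s t : ℂ} (hs : 3 ≤ s.re) :
    r2 q (wp s t) * kb q lam (2 - s) * mloc q (xr (true, false) k) (ww s t) +
      -(r1 q (wp s t) * ka q lam (2 - s)) * mloc q (xr (false, true) k) (ww s t) =
    nd q s * (q : ℂ) ^ t * nu q lam k s t := by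
  have hq0 : (q : ℂ) ≠ 0 := by
    have : q ≠ 0 := by omega
    exact_mod_cast this
  have hT : (q : ℂ) ^ t ≠ 0 := Complex.cpow_ne_zero_iff.mpr (Or.inl hq0)
  have hnd : nd q s ≠ 0 := by
    intro h0
    have h1 := nd_norm hq hs
    rw [h0, norm_zero] at h1
    linarith
  by_cases hk : k = (false, false)
  · subst hk
    have e1 : mloc q (xr (true, false) (false, false)) (ww s t) = r1 q (ww s t) := rfl
    have e2 : mloc q (xr (false, true) (false, false)) (ww s t) = r2 q (ww s t) := rfl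
    have e3 : nu q lam (false, false) s t = Lam q lam t := if_pos rfl
    rw [e1, e2, e3, nu_kb, nu_ka]
    have h1 := det_id hq lam s t
    have h2 : dfac q lam s t = nd q s * (q : ℂ) ^ t * Lam q lam t := by
      unfold dfac nd
      ring
    rw [← h2, ← h1]
    ring
  · have e3 : nu q lam k s t = (nd q s * (q : ℂ) ^ t)⁻¹ *
      (r2 q (wp s t) * kb q lam (2 - s) * mloc q (xr (true, false) k) (ww s t) -
        r1 q (wp s t) * ka q lam (2 - s) * mloc q (xr (false, true) k) (ww s t)) := if_neg hk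
    rw [e3, ← mul_assoc, mul_inv_cancel₀ (mul_ne_zero hnd hT), one_mul]
    ring

theorem nu_diff {q : ℕ} (hq : 101 ≤ q) (lam : ℝ) (k : LC) {t : ℂ} (ht : 0 < t.re) :
    DifferentiableOn ℂ (fun s => nu q lam k s t) {s : ℂ | t.re + 3 < s.re} := by
  have hq0 : (q : ℂ) ≠ 0 := by
    have : q ≠ 0 := by omega
    exact_mod_cast this
  have hT : (q : ℂ) ^ t ≠ 0 := Complex.cpow_ne_zero_iff.mpr (Or.inl hq0)
  by_cases hk : k = (false, false)
  · have e3 : (fun s => nu q lam k s t) = fun _ => Lam q lam t := by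
      funext s
      exact if_pos hk
    rw [e3]
    exact differentiableOn_const _
  · intro s hs
    refine DifferentiableAt.differentiableWithinAt ?_
    have hs' : t.re + 3 < s.re := hs
    have e3 : (fun s => nu q lam k s t) = fun s => (nd q s * (q : ℂ) ^ t)⁻¹ *
      (r2 q (wp s t) * kb q lam (2 - s) * mloc q (xr (true, false) k) (ww s t) -
        r1 q (wp s t) * ka q lam (2 - s) * mloc q (xr (false, true) k) (ww s t)) := by
      funext s
      exact if_neg hk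
    rw [e3]
    have hnd : nd q s ≠ 0 := by
      intro h0
      have h1 := nd_norm hq (s := s) (by linarith)
      rw [h0, norm_zero] at h1
      linarith
    have dnd : DifferentiableAt ℂ (fun s => nd q s) s := by
      unfold nd
      exact ((differentiableAt_const _).sub (nu_cpow hq (f := fun s : ℂ => 2 * (s - 2))
        (by fun_prop))).const_mul _
    have dw : DifferentiableAt ℂ (fun s => ww s t) s := by
      unfold ww
      fun_prop
    have dm : ∀ k' : LC, DifferentiableAt ℂ (fun s => mloc q k' (ww s t)) s := fun k' =>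
      DifferentiableAt.comp s (g := mloc q k') (f := fun s => ww s t)
        (nu_mdiff hq k' (nu_ww hs')) dw
    have d2 : DifferentiableAt ℂ (fun s => r2 q (wp s t)) s := by
      unfold r2
      exact (differentiableAt_const _).add (nu_cpow hq (f := fun s : ℂ => wp s t - 1 / 2) (by
        unfold wp
        fun_prop))
    have d1 : DifferentiableAt ℂ (fun s => r1 q (wp s t)) s := by
      unfold r1
      exact ((differentiableAt_const _).add (nu_cpow hq (f := fun s : ℂ => wp s t - 3 / 2) (by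
        unfold wp
        fun_prop))).const_mul _
    have db : DifferentiableAt ℂ (fun s => kb q lam (2 - s)) s := by
      unfold kb
      exact (((differentiableAt_const _).add ((nu_cpow hq (f := fun s : ℂ => -(2 - s))
        (by fun_prop)).const_mul _)).add (nu_cpow hq (f := fun s : ℂ => 1 - 2 * (2 - s))
        (by fun_prop))).const_mul _
    have da : DifferentiableAt ℂ (fun s => ka q lam (2 - s)) s := by
      unfold ka
      exact ((differentiableAt_const _).add ((nu_cpow hq (f := fun s : ℂ => 1 - (2 - s))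
        (by fun_prop)).const_mul _)).add (nu_cpow hq (f := fun s : ℂ => 3 - 2 * (2 - s))
        (by fun_prop))
    exact ((dnd.mul_const _).inv (mul_ne_zero hnd hT)).mul
      (((d2.mul db).mul (dm _)).sub ((d1.mul da).mul (dm _)))

theorem nu_bd {q : ℕ} (hq : 101 ≤ q) (lam : ℝ) (k : LC) {t : ℂ} (ht : 0 < t.re) :
    ∃ C : ℝ, 0 ≤ C ∧ ∀ s : ℂ, t.re + 3 < s.re → ‖nu q lam k s t‖ ≤ C * (q : ℝ) ^ s.re := by
  have hqr : (101 : ℝ) ≤ q := by exact_mod_cast hq
  have hq1 : (1 : ℝ) ≤ q := by linarith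
  have hqp : (0 : ℝ) < q := by linarith
  have hsq : 0 ≤ Real.sqrt q := Real.sqrt_nonneg _
  by_cases hk : k = (false, false)
  · refine ⟨‖Lam q lam t‖, norm_nonneg _, fun s hs => ?_⟩
    have e3 : nu q lam k s t = Lam q lam t := if_pos hk
    rw [e3]
    have h1 : (1 : ℝ) ≤ (q : ℝ) ^ s.re := Real.one_le_rpow hq1 (by linarith)
    exact le_mul_of_one_le_right (norm_nonneg _) h1
  · obtain ⟨Tn, hTn⟩ : ∃ Tn : ℝ, Tn = (q : ℝ) ^ t.re := ⟨_, rfl⟩
    have hTp : 0 < Tn := by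
      rw [hTn]
      exact Real.rpow_pos_of_pos hqp _
    refine ⟨2 * (q : ℝ) ^ 4 / Tn * ((1 + Tn) * (q * (2 + |lam|)) * (8 * Real.sqrt q) +
      (Real.sqrt q * (1 + Tn)) * (2 + |lam|) * (8 * Real.sqrt q)), by positivity, fun s hs => ?_⟩
    have e3 : nu q lam k s t = (nd q s * (q : ℂ) ^ t)⁻¹ *
      (r2 q (wp s t) * kb q lam (2 - s) * mloc q (xr (true, false) k) (ww s t) -
        r1 q (wp s t) * ka q lam (2 - s) * mloc q (xr (false, true) k) (ww s t)) := if_neg hk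
    rw [e3]
    obtain ⟨X, hX⟩ : ∃ X : ℝ, X = (q : ℝ) ^ s.re := ⟨_, rfl⟩
    rw [← hX]
    have hX1 : 1 ≤ X := by
      rw [hX]
      exact Real.one_le_rpow hq1 (by linarith)
    have hXp : 0 < X := by linarith
    have hX2 : (q : ℝ) ^ (2 * s.re) = X ^ 2 := by
      rw [two_mul, Real.rpow_add hqp, ← hX, sq]
    have hXX : X ≤ X ^ 2 := by nlinarith
    -- the first factor
    obtain ⟨n1, n2⟩ := nd_aux hq (s := s) (by linarith)
    have n3 : (q : ℝ) ^ (2 * s.re - 4) = X ^ 2 / (q : ℝ) ^ 4 := by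
      rw [Real.rpow_sub hqp, hX2]
      congr 1
      exact_mod_cast Real.rpow_natCast (q : ℝ) 4
    rw [n3] at n1 n2
    have n4 : X ^ 2 / (q : ℝ) ^ 4 / 2 ≤ ‖nd q s‖ := by linarith
    have n5 : ‖(nd q s * (q : ℂ) ^ t)⁻¹‖ ≤ 2 * (q : ℝ) ^ 4 / Tn / X ^ 2 := by
      rw [norm_inv, norm_mul, nu_norm hq, ← hTn]
      have h1 : X ^ 2 / (q : ℝ) ^ 4 / 2 * Tn ≤ ‖nd q s‖ * Tn := mul_le_mul_of_nonneg_right n4 hTp.le
      have h2 : 0 < X ^ 2 / (q : ℝ) ^ 4 / 2 * Tn := by positivity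
      refine (inv_anti₀ h2 h1).trans (le_of_eq ?_)
      field_simp
    -- the other factors
    have b1 : ‖(q : ℂ) ^ (wp s t - 1 / 2)‖ ≤ Tn * X := by
      rw [nu_norm hq, hTn, hX, ← Real.rpow_add hqp]
      refine Real.rpow_le_rpow_of_exponent_le hq1 ?_
      unfold wp
      simp only [Complex.sub_re, Complex.add_re]
      norm_num
      linarith
    have b2 : ‖(q : ℂ) ^ (wp s t - 3 / 2)‖ ≤ Tn * X := by
      rw [nu_norm hq, hTn, hX, ← Real.rpow_add hqp]
      refine Real.rpow_le_rpow_of_exponent_le hq1 ?_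
      unfold wp
      simp only [Complex.sub_re, Complex.add_re]
      norm_num
      linarith
    have c1 : ‖r2 q (wp s t)‖ ≤ (1 + Tn) * X := by
      unfold r2
      refine (norm_add_le _ _).trans ?_
      rw [norm_one]
      linarith
    have c2 : ‖r1 q (wp s t)‖ ≤ Real.sqrt q * (1 + Tn) * X := by
      unfold r1
      rw [norm_mul, Complex.norm_real, Real.norm_of_nonneg hsq, mul_assoc]
      refine mul_le_mul_of_nonneg_left ?_ hsq
      refine (norm_add_le _ _).trans ?_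
      rw [norm_one]
      linarith
    have hpow : ∀ z : ℂ, z.re ≤ 2 * s.re → ‖(q : ℂ) ^ z‖ ≤ X ^ 2 := by
      intro z hz
      rw [nu_norm hq, ← hX2]
      exact Real.rpow_le_rpow_of_exponent_le hq1 hz
    have hlam : ‖(lam : ℂ)‖ = |lam| := by rw [Complex.norm_real, Real.norm_eq_abs]
    have hl0 : 0 ≤ |lam| := abs_nonneg lam
    have c3 : ‖kb q lam (2 - s)‖ ≤ q * (2 + |lam|) * X ^ 2 := by
      rw [nu_kb]
      unfold kap1
      rw [norm_mul, Complex.norm_natCast, mul_assoc]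
      refine mul_le_mul_of_nonneg_left ?_ hqp.le
      refine (norm_add_le _ _).trans ?_
      have h1 := norm_add_le (1 : ℂ) ((lam : ℂ) * (q : ℂ) ^ (s - 2))
      rw [norm_one, norm_mul, hlam] at h1
      have h2 := hpow (s - 2) (by
        rw [Complex.sub_re]
        norm_num
        linarith)
      have h3 := hpow (2 * s - 3) (by
        simp only [Complex.sub_re, Complex.mul_re]
        norm_num)
      have h4 := mul_le_mul_of_nonneg_left h2 hl0
      linarith
    have c4 : ‖ka q lam (2 - s)‖ ≤ (2 + |lam|) * X ^ 2 := by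
      rw [nu_ka]
      unfold kap2
      refine (norm_add_le _ _).trans ?_
      have h1 := norm_add_le (1 : ℂ) ((lam : ℂ) * (q : ℂ) ^ (s - 1))
      rw [norm_one, norm_mul, hlam] at h1
      have h2 := hpow (s - 1) (by
        rw [Complex.sub_re]
        norm_num
        linarith)
      have h3 := hpow (2 * s - 1) (by
        simp only [Complex.sub_re, Complex.mul_re]
        norm_num)
      have h4 := mul_le_mul_of_nonneg_left h2 hl0
      linarith
    have hm : ∀ k' : LC, ‖mloc q k' (ww s t)‖ ≤ 8 * Real.sqrt q := fun k' =>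
      nu_mbd hq k' (nu_ww hs)
    rw [norm_mul]
    have hsum : ‖r2 q (wp s t) * kb q lam (2 - s) * mloc q (xr (true, false) k) (ww s t) -
        r1 q (wp s t) * ka q lam (2 - s) * mloc q (xr (false, true) k) (ww s t)‖ ≤
        ((1 + Tn) * (q * (2 + |lam|)) * (8 * Real.sqrt q) +
      (Real.sqrt q * (1 + Tn)) * (2 + |lam|) * (8 * Real.sqrt q)) * X ^ 3 := by
      refine (norm_sub_le _ _).trans ?_
      rw [norm_mul, norm_mul, norm_mul, norm_mul]
      have h1 : ‖r2 q (wp s t)‖ * ‖kb q lam (2 - s)‖ * ‖mloc q (xr (true, false) k) (ww s t)‖ ≤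
          (1 + Tn) * X * (q * (2 + |lam|) * X ^ 2) * (8 * Real.sqrt q) := by
        have := hm (xr (true, false) k)
        gcongr
      have h2 : ‖r1 q (wp s t)‖ * ‖ka q lam (2 - s)‖ * ‖mloc q (xr (false, true) k) (ww s t)‖ ≤
          Real.sqrt q * (1 + Tn) * X * ((2 + |lam|) * X ^ 2) * (8 * Real.sqrt q) := by
        have := hm (xr (false, true) k)
        gcongr
      refine (add_le_add h1 h2).trans (le_of_eq ?_)
      ring
    refine (mul_le_mul n5 hsum (norm_nonneg _) (by positivity)).trans (le_of_eq ?_)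
    field_simp

end Pool.Agent.MD
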