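import Pool.Agent.MD.A.Cls
import Pool.Agent.MD.A.Nu
import Pool.Agent.MD.A.Gqc

/-!
# MD/A-GsLim: the combination of the normalised series tends to `∏ Lam * Ls^2`

PLAN.  `A2` = maximum of the constants of `Gqc_diff`, `Gqc_bd`, `Gq_lim` (LD/A/Gexp), and `6`.  `Gs_diff`: finite sum of finite products
(`DifferentiableOn.fun_sum`, `DifferentiableOn.fun_finsetProd`; `nu_diff` on `{t.re + 3 < s.re}`, `A2 ≥ 3`).
`Gs_lim`: isolate the term `k = 0` (`fun _ => (false, false)`) of the sum (`Finset.sum_eq_add_sum_diff_singleton` or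
`Finset.sum_erase_eq_sub`): it is `(∏ i, Lam (q i) (lam i) t) * Gqc S 1 s t` (`cl_zero`, `nu` with `if_pos rfl`), `Gqc_one`, `Gq_lim`.
For `k ≠ 0`: `‖∏ i, nu‖ ≤ ∏ i, C_i (q i)^(Re s) = C (∏ q i : ℝ)^(Re s)` (`nu_bd`, `Real.finset_prod_rpow`, `Finset.prod_le_prod`), and `Gqc_bd` with
`Q = 101 * ∏ i, q i` (`hL.sep`): `‖Gqc‖ ≤ C' (101 ∏ q)^(-Re s) = C' 101^(-Re s) (∏ q)^(-Re s)` (`Real.mul_rpow`, `Real.rpow_neg`).
-/

namespace Pool.Agent.MD

open Pool.Agent.QD Pool.Agent.QD.SysD Pool.Agent.LD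

/-- the combination of the series of the classes `cl e p k` -/
noncomputable def Gs (S : SysD) {κ : Type} [Fintype κ] [DecidableEq κ] (e p : κ → S.G)
    (q : κ → ℕ) (lam : κ → ℝ) (s t : ℂ) : ℂ :=
  ∑ k : κ → LC, (∏ i, nu (q i) (lam i) (k i) s t) * Gqc S (cl e p k) s t

variable {S : SysD} {H : Subgroup S.G} {Kn : Set S.G} {M0 : S.G → ℂ → ℂ} {κ : Type} [Fintype κ]
  [DecidableEq κ] {e p : κ → S.G} {q : κ → ℕ} {lam : κ → ℝ}

private theorem term_zero (hS : IsSys0 S) : ∃ A2 : ℝ, 6 ≤ A2 ∧ ∀ t : ℂ, A2 < t.re →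
    ∃ C : ℝ, 0 ≤ C ∧ ∀ s : ℂ, t.re + A2 < s.re →
      ‖(∏ i, nu (q i) (lam i) (false, false) s t) *
          Gqc S (cl e p fun _ => (false, false)) s t -
        (∏ i, Lam (q i) (lam i) t) * S.Ls t ^ 2‖ ≤ C * (101 : ℝ) ^ (-s.re) := by
  obtain ⟨A2, hA2, h⟩ := Gq_lim hS
  refine ⟨A2, hA2, fun t ht => ?_⟩
  obtain ⟨C, hC, hb⟩ := h t ht
  refine ⟨‖∏ i, Lam (q i) (lam i) t‖ * C, mul_nonneg (norm_nonneg _) hC, fun s hs => ?_⟩
  have e1 : ∏ i, nu (q i) (lam i) (false, false) s t = ∏ i, Lam (q i) (lam i) t :=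
    Finset.prod_congr rfl fun i _ => by
      unfold nu
      rw [if_pos rfl]
  rw [e1, cl_zero, Gqc_one, ← mul_sub, norm_mul, mul_assoc]
  exact mul_le_mul_of_nonneg_left (hb s hs) (norm_nonneg _)

private theorem term_pos (hL : IsLocs S H Kn M0 e p q lam)
    {A2 : ℝ} (hA2 : 6 ≤ A2) (hG : ∀ (c : S.G) (Q : ℕ), 1 ≤ Q →
    (∀ b : S.J, S.R b c → Q ≤ S.nJ b) → ∀ t : ℂ, A2 < t.re →
    ∃ C : ℝ, 0 ≤ C ∧ ∀ s : ℂ, t.re + A2 < s.re → ‖Gqc S c s t‖ ≤ C * (Q : ℝ) ^ (-s.re))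
    {k : κ → LC} (hk : k ≠ fun _ => (false, false)) {t : ℂ} (ht : A2 < t.re) :
    ∃ C : ℝ, 0 ≤ C ∧ ∀ s : ℂ, t.re + A2 < s.re →
      ‖(∏ i, nu (q i) (lam i) (k i) s t) * Gqc S (cl e p k) s t‖ ≤
        C * (101 : ℝ) ^ (-s.re) := by
  have hq0 : ∀ i, 1 ≤ q i := fun i => by have := hL.hq i; omega
  have hprod : 1 ≤ ∏ i, q i := Nat.one_le_iff_ne_zero.2
    (Finset.prod_ne_zero_iff.2 fun i _ => by have := hq0 i; omega)
  obtain ⟨C1, hC1, h1⟩ := hG (cl e p k) (101 * ∏ i, q i) (by omega) (hL.sep k hk) t ht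
  choose C2 hC2 h2 using fun i => nu_bd (hL.hq i) (lam i) (k i) (t := t) (by linarith)
  refine ⟨(∏ i, C2 i) * C1, mul_nonneg (Finset.prod_nonneg fun i _ => hC2 i) hC1,
    fun s hs => ?_⟩
  have hP : (0 : ℝ) < ∏ i, (q i : ℝ) := Finset.prod_pos fun i _ => by
    have := hq0 i
    exact_mod_cast this
  have e1 : ‖∏ i, nu (q i) (lam i) (k i) s t‖ ≤ (∏ i, C2 i) * (∏ i, (q i : ℝ)) ^ s.re := by
    rw [norm_prod]
    calc ∏ i, ‖nu (q i) (lam i) (k i) s t‖ ≤ ∏ i, (C2 i * (q i : ℝ) ^ s.re) :=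
          Finset.prod_le_prod (fun i _ => norm_nonneg _) fun i _ => h2 i s (by linarith)
      _ = (∏ i, C2 i) * (∏ i, (q i : ℝ)) ^ s.re := by
          rw [Finset.prod_mul_distrib, Real.finset_prod_rpow _ _ fun i _ => by positivity]
  have e2 := h1 s hs
  have e3 : (((101 * ∏ i, q i : ℕ) : ℝ)) ^ (-s.re) =
      (101 : ℝ) ^ (-s.re) * ((∏ i, (q i : ℝ)) ^ s.re)⁻¹ := by
    push_cast
    rw [Real.mul_rpow (by norm_num) hP.le, Real.rpow_neg hP.le]
  rw [e3] at e2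
  have hPs : 0 < (∏ i, (q i : ℝ)) ^ s.re := Real.rpow_pos_of_pos hP _
  rw [norm_mul]
  calc ‖∏ i, nu (q i) (lam i) (k i) s t‖ * ‖Gqc S (cl e p k) s t‖
      ≤ ((∏ i, C2 i) * (∏ i, (q i : ℝ)) ^ s.re) *
        (C1 * ((101 : ℝ) ^ (-s.re) * ((∏ i, (q i : ℝ)) ^ s.re)⁻¹)) :=
        mul_le_mul e1 e2 (norm_nonneg _)
          (mul_nonneg (Finset.prod_nonneg fun i _ => hC2 i) hPs.le)
    _ = (∏ i, C2 i) * C1 * (101 : ℝ) ^ (-s.re) := by
        field_simp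

theorem Gs_lim (hS : IsSys0 S) (hL : IsLocs S H Kn M0 e p q lam) : ∃ A2 : ℝ, 6 ≤ A2 ∧
    ∀ t : ℂ, A2 < t.re →
      DifferentiableOn ℂ (fun s => Gs S e p q lam s t) {s : ℂ | t.re + A2 < s.re} ∧
      ∃ C : ℝ, 0 ≤ C ∧ ∀ s : ℂ, t.re + A2 < s.re →
        ‖Gs S e p q lam s t - (∏ i, Lam (q i) (lam i) t) * S.Ls t ^ 2‖ ≤
          C * (101 : ℝ) ^ (-s.re) := by
  classical
  obtain ⟨Aa, hAa, ha⟩ := Gqc_diff hS
  obtain ⟨Ab, hAb, hb⟩ := Gqc_bd hS
  obtain ⟨Ac, hAc, hc⟩ := term_zero (e := e) (p := p) (q := q) (lam := lam) hS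
  refine ⟨max Aa (max Ab Ac), hAa.trans (le_max_left _ _), fun t ht => ?_⟩
  have hla : Aa ≤ max Aa (max Ab Ac) := le_max_left _ _
  have hlb : Ab ≤ max Aa (max Ab Ac) := (le_max_left _ _).trans (le_max_right _ _)
  have hlc : Ac ≤ max Aa (max Ab Ac) := (le_max_right _ _).trans (le_max_right _ _)
  constructor
  · unfold Gs
    refine DifferentiableOn.fun_sum fun k _ => DifferentiableOn.mul ?_ ?_
    · refine DifferentiableOn.fun_finsetProd fun i _ => ?_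
      refine (nu_diff (hL.hq i) (lam i) (k i) (t := t) (by linarith)).mono fun s hs => ?_
      have hs' : t.re + max Aa (max Ab Ac) < s.re := hs
      show t.re + 3 < s.re
      linarith
    · refine (ha (cl e p k) t (by linarith)).mono fun s hs => ?_
      have hs' : t.re + max Aa (max Ab Ac) < s.re := hs
      show t.re + Aa < s.re
      linarith
  · obtain ⟨C0, hC0, h0⟩ := hc t (by linarith)
    have hterm : ∀ k : κ → LC, ∃ C : ℝ, 0 ≤ C ∧ ∀ s : ℂ, t.re + max Aa (max Ab Ac) < s.re →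
        ‖(∏ i, nu (q i) (lam i) (k i) s t) * Gqc S (cl e p k) s t -
          (if k = (fun _ => (false, false)) then
            (∏ i, Lam (q i) (lam i) t) * S.Ls t ^ 2 else 0)‖ ≤ C * (101 : ℝ) ^ (-s.re) := by
      intro k
      by_cases hk : k = fun _ => (false, false)
      · refine ⟨C0, hC0, fun s hs => ?_⟩
        rw [if_pos hk, hk]
        exact h0 s (by linarith)
      · obtain ⟨C1, hC1, h1⟩ := term_pos hL hAb hb hk (t := t) (by linarith)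
        refine ⟨C1, hC1, fun s hs => ?_⟩
        rw [if_neg hk, sub_zero]
        exact h1 s (by linarith)
    choose C hC hCb using hterm
    refine ⟨∑ k, C k, Finset.sum_nonneg fun k _ => hC k, fun s hs => ?_⟩
    have e1 : Gs S e p q lam s t - (∏ i, Lam (q i) (lam i) t) * S.Ls t ^ 2 =
        ∑ k : κ → LC, ((∏ i, nu (q i) (lam i) (k i) s t) * Gqc S (cl e p k) s t -
          (if k = (fun _ => (false, false)) then
            (∏ i, Lam (q i) (lam i) t) * S.Ls t ^ 2 else 0)) := by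
      rw [Finset.sum_sub_distrib, Finset.sum_ite_eq' Finset.univ (fun _ => (false, false)),
        if_pos (Finset.mem_univ _)]
      rfl
    rw [e1, Finset.sum_mul]
    exact (norm_sum_le _ _).trans (Finset.sum_le_sum fun k _ => hCb k s hs)

end Pool.Agent.MD
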