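import Pool.Agent.MD.A.YC
import Pool.Agent.MD.A.Cls

/-!
# MD/A-Kf1: the invariant linear combination, its two expressions, regularity

Adapted from LD/A/Kf1 (finite products of the coefficients, classes in a set).
-/

namespace Pool.Agent.MD

open Pool.Agent.QD Pool.Agent.QD.SysD Pool.Agent.LD

/-- coefficients -/
noncomputable def co (q : ℕ) (f : Bool) (w : ℂ) : ℂ := if f then r2 q w else -r1 q w

/-- the combination of the known series, for `Re t` large -/
noncomputable def K1f (S : SysD) (Y : S.G → ℂ → ℂ → ℂ) {κ : Type} [Fintype κ] [DecidableEq κ]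
    (e p : κ → S.G) (q : κ → ℕ) (g : S.G) (s t : ℂ) : ℂ :=
  ∑ f : κ → Bool, (∏ i, co (q i) (f i) (ww s t)) * Y (g * cl e p fun i => ef (f i)) s t

open Classical in
/-- the same combination through the other functional equation, for `Re s` large, `Re w < 0` -/
noncomputable def K2f (S : SysD) (Kn : Set S.G) (Y : S.G → ℂ → ℂ → ℂ) {κ : Type} [Fintype κ]
    [DecidableEq κ] (e p : κ → S.G) (q : κ → ℕ) (g : S.G) (s t : ℂ) : ℂ :=
  (ww s t - 1) ^ 2 * ((ww s t) ^ 2)⁻¹ * ((S.cU : ℂ) ^ 2)⁻¹ * ∑ c : S.G, if c ∈ Kn then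
    (∑ f : κ → Bool, (∏ i, co (q i) (f i) (ww s t)) *
      S.M (g * (cl e p fun i => ef (f i)) * c) (ww s t)) * Y c t s else 0

variable {S : SysD} {H : Subgroup S.G} {Kn : Set S.G} {M0 : S.G → ℂ → ℂ} {κ : Type} [Fintype κ]
  [DecidableEq κ] {e p : κ → S.G} {q : κ → ℕ} {lam : κ → ℝ} {R : ℝ} {Y : S.G → ℂ → ℂ → ℂ}

private theorem mkf_hol2 {f : ℂ → ℂ} (hf : Differentiable ℂ f) :
    Hol2 Set.univ (fun s t => f (ww s t)) := by
  have h := Hol2.comp1 (V := Set.univ) isOpen_univ hf.differentiableOn hol2_ww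
  exact h.mono (fun x _ => Set.mem_univ _)

private theorem mkf_prod_hol {U : Set (ℂ × ℂ)} {ι : Type} (s : Finset ι) {f : ι → ℂ → ℂ → ℂ}
    (h : ∀ i ∈ s, Hol2 U (f i)) : Hol2 U (fun x y => ∏ i ∈ s, f i x y) := by
  classical
  induction s using Finset.induction_on with
  | empty =>
    have h2 : (fun x y : ℂ => ∏ i ∈ (∅ : Finset ι), f i x y) = fun _ _ => 1 := by
      funext x y
      rw [Finset.prod_empty]
    rw [h2]
    exact Hol2.const U 1
  | insert i s hi ih =>
    have h1 := (h i (Finset.mem_insert_self i s)).mul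
      (ih fun j hj => h j (Finset.mem_insert_of_mem hj))
    have h2 : (fun x y => ∏ j ∈ insert i s, f j x y) =
        fun x y => f i x y * ∏ j ∈ s, f j x y := by
      funext x y
      rw [Finset.prod_insert hi]
    rw [h2]
    exact h1

private theorem mkf_prod_bd {ι : Type} (s : Finset ι) {f : ι → ℂ → ℂ → ℂ} {a b c d : ℝ}
    (h : ∀ i ∈ s, PB (f i) a b c d) : PB (fun x y => ∏ i ∈ s, f i x y) a b c d := by
  classical
  induction s using Finset.induction_on with
  | empty =>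
    have h2 : (fun x y : ℂ => ∏ i ∈ (∅ : Finset ι), f i x y) = fun _ _ => 1 := by
      funext x y
      rw [Finset.prod_empty]
    rw [h2]
    exact PB.of_bdd ⟨1, fun _ _ _ _ _ _ => by rw [norm_one]⟩
  | insert i s hi ih =>
    have h1 := (h i (Finset.mem_insert_self i s)).mul
      (ih fun j hj => h j (Finset.mem_insert_of_mem hj))
    have h2 : (fun x y => ∏ j ∈ insert i s, f j x y) =
        fun x y => f i x y * ∏ j ∈ s, f j x y := by
      funext x y
      rw [Finset.prod_insert hi]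
    rw [h2]
    exact h1

private theorem mkf_co_hol {q : ℕ} (hq : 101 ≤ q) (f : Bool) :
    Hol2 Set.univ (fun s t => co q f (ww s t)) := by
  cases f with
  | false =>
    have h2 : (fun s t : ℂ => co q false (ww s t)) = fun s t => (0 : ℂ) - r1 q (ww s t) := by
      funext s t
      simp [co]
    rw [h2]
    exact (Hol2.const _ 0).sub (hol2_r1 hq)
  | true =>
    have h2 : (fun s t : ℂ => co q true (ww s t)) = fun s t => r2 q (ww s t) := by
      funext s t
      simp [co]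
    rw [h2]
    exact hol2_r2 hq

private theorem mkf_co_bd {q : ℕ} (hq : 101 ≤ q) (f : Bool) (a b c d : ℝ) :
    PB (fun s t => co q f (ww s t)) a b c d := by
  have h5 : PB (fun s t => r1 q (ww s t)) a b c d :=
    PB.comp_ww (r1_bd hq (c - b + 1 / 2) (d - a + 1 / 2)) le_rfl le_rfl
  have h6 : PB (fun s t => r2 q (ww s t)) a b c d :=
    PB.comp_ww (r2_bd hq (c - b + 1 / 2) (d - a + 1 / 2)) le_rfl le_rfl
  cases f with
  | false =>
    have h2 : (fun s t : ℂ => co q false (ww s t)) = fun s t => (0 : ℂ) - r1 q (ww s t) := by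
      funext s t
      simp [co]
    rw [h2]
    exact (PB.of_bdd ⟨0, fun _ _ _ _ _ _ => by rw [norm_zero]⟩ :
      PB (fun _ _ => (0 : ℂ)) a b c d).sub h5
  | true =>
    have h2 : (fun s t : ℂ => co q true (ww s t)) = fun s t => r2 q (ww s t) := by
      funext s t
      simp [co]
    rw [h2]
    exact h6

omit [DecidableEq κ] in
private theorem mkf_cprod_hol (hq : ∀ i, 101 ≤ q i) (f : κ → Bool) :
    Hol2 Set.univ (fun s t => ∏ i, co (q i) (f i) (ww s t)) :=
  mkf_prod_hol Finset.univ fun i _ => mkf_co_hol (hq i) (f i)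

omit [DecidableEq κ] in
private theorem mkf_cprod_bd (hq : ∀ i, 101 ≤ q i) (f : κ → Bool) (a b c d : ℝ) :
    PB (fun s t => ∏ i, co (q i) (f i) (ww s t)) a b c d :=
  mkf_prod_bd Finset.univ fun i _ => mkf_co_bd (hq i) (f i) a b c d

theorem K1f_hol (hL : IsLocs S H Kn M0 e p q lam) (hY : IsY S Kn R Y) {g : S.G} (hg : g ∈ H) :
    Hol2 {x | R < x.2.re} (K1f S Y e p q g) := by
  unfold K1f
  exact Hol2.sum _ fun f _ => ((mkf_cprod_hol hL.hq f).mono (Set.subset_univ _)).mul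
    (hY.hol _ (kn_ef hL hg f))

theorem K1f_bd (hL : IsLocs S H Kn M0 e p q lam) (hY : IsY S Kn R Y) {g : S.G} (hg : g ∈ H)
    (a b c d : ℝ) (hc : R < c) : PB (K1f S Y e p q g) a b c d := by
  unfold K1f
  exact PB.sum _ fun f _ => (mkf_cprod_bd hL.hq f a b c d).mul
    (hY.bd _ (kn_ef hL hg f) a b c d hc)

theorem K2f_hol (hS : IsSys0 S) (hL : IsLocs S H Kn M0 e p q lam) (hY : IsY S Kn R Y) (g : S.G) :
    Hol2 {x | R < x.1.re ∧ (ww x.1 x.2).re < 0} (K2f S Kn Y e p q g) := by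
  have hop : IsOpen {w : ℂ | w.re < 0} := isOpen_lt Complex.continuous_re continuous_const
  have h1 : Hol2 {x | R < x.1.re ∧ (ww x.1 x.2).re < 0} (fun s t => (ww s t - 1) ^ 2) := by
    have := mkf_hol2 (f := fun w => (w - 1) ^ 2) (by fun_prop)
    exact this.mono (Set.subset_univ _)
  have h2 : Hol2 {x | R < x.1.re ∧ (ww x.1 x.2).re < 0} (fun s t => ((ww s t) ^ 2)⁻¹) := by
    have hd : DifferentiableOn ℂ (fun w : ℂ => (w ^ 2)⁻¹) {w : ℂ | w.re < 0} := by
      refine DifferentiableOn.inv (by fun_prop) (fun w hw => ?_)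
      refine pow_ne_zero 2 ?_
      rintro rfl
      simp at hw
    exact (Hol2.comp1 hop hd hol2_ww).mono (fun x hx => hx.2)
  have h3 : ∀ g' : S.G, Hol2 {x | R < x.1.re ∧ (ww x.1 x.2).re < 0}
      (fun s t => S.M g' (ww s t)) := fun g' =>
    (Hol2.comp1 hop (M_diff hS g') hol2_ww).mono (fun x hx => hx.2)
  have h4 : ∀ c : S.G, c ∈ Kn → Hol2 {x | R < x.1.re ∧ (ww x.1 x.2).re < 0}
      (fun s t => Y c t s) := fun c hc =>
    (Hol2.comp (hY.hol c hc) hol2_snd hol2_fst).mono (fun x hx => hx.1)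
  have h5 : ∀ f : κ → Bool, Hol2 {x | R < x.1.re ∧ (ww x.1 x.2).re < 0}
      (fun s t => ∏ i, co (q i) (f i) (ww s t)) := fun f =>
    (mkf_cprod_hol hL.hq f).mono (Set.subset_univ _)
  unfold K2f
  refine ((h1.mul h2).mul (Hol2.const _ _)).mul (Hol2.sum _ fun c _ => ?_)
  split_ifs with hc
  · exact (Hol2.sum _ fun f _ => (h5 f).mul (h3 _)).mul (h4 c hc)
  · exact Hol2.const _ _

theorem K2f_bd (hS : IsSys0 S) (hL : IsLocs S H Kn M0 e p q lam) (hY : IsY S Kn R Y) (g : S.G)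
    (a b c d : ℝ) (ha : R < a) (hd : d - a + 1 / 2 < 0) : PB (K2f S Kn Y e p q g) a b c d := by
  have h1 : PB (fun s t => (ww s t - 1) ^ 2) a b c d :=
    PB.comp_ww (f := fun w => (w - 1) ^ 2) (lin_pow_bd 2 1 (c - b + 1 / 2) (d - a + 1 / 2))
      le_rfl le_rfl
  have h2 : PB (fun s t => ((ww s t) ^ 2)⁻¹) a b c d := by
    refine PB.of_bdd ⟨((-(d - a + 1 / 2)) ^ 2)⁻¹, fun s t hs _ _ ht => ?_⟩
    have e1 : (ww s t).re ≤ d - a + 1 / 2 := by
      have : (ww s t).re = t.re - s.re + 1 / 2 := by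
        unfold ww
        simp [Complex.add_re, Complex.sub_re]
      rw [this]
      linarith
    have e2 : -(d - a + 1 / 2) ≤ ‖ww s t‖ := by
      refine le_trans ?_ (Complex.abs_re_le_norm (ww s t))
      have := neg_abs_le (ww s t).re
      linarith
    rw [norm_inv, norm_pow]
    have e3 : 0 < (-(d - a + 1 / 2)) ^ 2 := by
      have : 0 < -(d - a + 1 / 2) := by linarith
      positivity
    exact inv_anti₀ e3 (pow_le_pow_left₀ (by linarith) e2 2)
  have h3 : ∀ g' : S.G, PB (fun s t => S.M g' (ww s t)) a b c d := fun g' =>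
    PB.comp_ww (M_bd hS g' (c - b + 1 / 2) (d - a + 1 / 2) hd) le_rfl le_rfl
  have h4 : ∀ c' : S.G, c' ∈ Kn → PB (fun s t => Y c' t s) a b c d := fun c' hc =>
    (hY.bd c' hc c d a b ha).swap
  have h0 : ∀ z : ℂ, PB (fun _ _ => z) a b c d := fun z =>
    PB.of_bdd ⟨‖z‖, fun _ _ _ _ _ _ => le_rfl⟩
  unfold K2f
  refine ((h1.mul h2).mul (h0 _)).mul (PB.sum _ fun c' _ => ?_)
  split_ifs with hc
  · exact (PB.sum _ fun f _ => (mkf_cprod_bd hL.hq f a b c d).mul (h3 _)).mul (h4 c' hc)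
  · exact h0 0

end Pool.Agent.MD
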