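import Pool.Agent.MD.A.Wf

/-!
# MD/A-Sid: the sum over the classes of `H`

The functional equation beta is applied to every term, the sum over the classes is decomposed, and the
inverse of the matrix `M0 (g h)` leaves only `h = 1`.
-/

namespace Pool.Agent.MD

open Pool.Agent.QD Pool.Agent.QD.SysD Pool.Agent.LD

variable {S : SysD} {H : Subgroup S.G} {Kn : Set S.G} {M0 : S.G → ℂ → ℂ} {κ : Type} [Fintype κ]
  [DecidableEq κ] {e p : κ → S.G} {q : κ → ℕ} {lam : κ → ℝ} {R : ℝ} {Y : S.G → ℂ → ℂ → ℂ}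

/-- the term of `g`, after the functional equation and the decomposition of the sum -/
private theorem one_g (hS : IsSys0 S) (hL : IsLocs S H Kn M0 e p q lam) (hY : IsY S Kn R Y)
    (hB : Beta S R) {s t : ℂ} (hs : R < s.re) (ht : R < t.re) (hs3 : 3 ≤ s.re)
    (hw : (ww s t).re < 0) {g : S.G} (hg : g ∈ H) [DecidablePred fun h : S.G => h ∈ H] :
    (S.cU : ℂ) ^ 2 * ((ww s t) ^ 2 * ((ww s t - 1) ^ 2)⁻¹) *
      (∑ f : κ → Bool, (∏ i, th (q i) (lam i) (f i) s t) *
          Y (g * cl e p fun i => ef (f i)) s t) =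
    ∑ h : S.G, if h ∈ H then ∑ k : κ → LC, M0 (g * h) (ww s t) *
      ((∏ i, (nd (q i) s * (q i : ℂ) ^ t * nu (q i) (lam i) (k i) s t)) *
        YR S (h * cl e p k) t s) else 0 := by
  have hw0 : ww s t - 1 ≠ 0 := by
    intro h
    have h1 : ww s t = 1 := sub_eq_zero.mp h
    rw [h1, Complex.one_re] at hw
    linarith
  have hcU : (S.cU : ℂ) ≠ 0 := cU_ne hS
  have h1 : ∀ c : S.G, (S.cU : ℂ) ^ 2 * ((ww s t) ^ 2 * ((ww s t - 1) ^ 2)⁻¹) * YR S c s t =
      ∑ c' : S.G, S.M (c * c') (ww s t) * YR S c' t s := by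
    intro c
    have h2 := hB c s t hs ht hw
    calc (S.cU : ℂ) ^ 2 * ((ww s t) ^ 2 * ((ww s t - 1) ^ 2)⁻¹) * YR S c s t
        = (S.cU : ℂ) ^ 2 * ((ww s t - 1) ^ 2)⁻¹ * ((ww s t) ^ 2 * YR S c s t) := by ring
      _ = (S.cU : ℂ) ^ 2 * ((ww s t - 1) ^ 2)⁻¹ * ((ww s t - 1) ^ 2 * ((S.cU : ℂ) ^ 2)⁻¹ *
          ∑ c' : S.G, S.M (c * c') (ww s t) * YR S c' t s) := by rw [h2]
      _ = ((S.cU : ℂ) ^ 2 * ((S.cU : ℂ) ^ 2)⁻¹) * ((ww s t - 1) ^ 2 * ((ww s t - 1) ^ 2)⁻¹) *
          ∑ c' : S.G, S.M (c * c') (ww s t) * YR S c' t s := by ring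
      _ = ∑ c' : S.G, S.M (c * c') (ww s t) * YR S c' t s := by
          rw [mul_inv_cancel₀ (pow_ne_zero 2 hcU), mul_inv_cancel₀ (pow_ne_zero 2 hw0), one_mul,
            one_mul]
  have h3 : (S.cU : ℂ) ^ 2 * ((ww s t) ^ 2 * ((ww s t - 1) ^ 2)⁻¹) *
      (∑ f : κ → Bool, (∏ i, th (q i) (lam i) (f i) s t) *
          Y (g * cl e p fun i => ef (f i)) s t) =
      ∑ c : S.G, (∑ f : κ → Bool, (∏ i, th (q i) (lam i) (f i) s t) *
        S.M (g * (cl e p fun i => ef (f i)) * c) (ww s t)) * YR S c t s := by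
    rw [Finset.mul_sum]
    calc ∑ f : κ → Bool, (S.cU : ℂ) ^ 2 * ((ww s t) ^ 2 * ((ww s t - 1) ^ 2)⁻¹) *
          ((∏ i, th (q i) (lam i) (f i) s t) * Y (g * cl e p fun i => ef (f i)) s t)
        = ∑ f : κ → Bool, ∑ c : S.G, (∏ i, th (q i) (lam i) (f i) s t) *
          (S.M (g * (cl e p fun i => ef (f i)) * c) (ww s t) * YR S c t s) := by
          refine Finset.sum_congr rfl fun f _ => ?_
          rw [hY.eq _ (kn_ef hL hg f) s t hs ht, ← Finset.mul_sum, ← h1]
          ring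
      _ = ∑ c : S.G, ∑ f : κ → Bool, (∏ i, th (q i) (lam i) (f i) s t) *
          (S.M (g * (cl e p fun i => ef (f i)) * c) (ww s t) * YR S c t s) := Finset.sum_comm
      _ = _ := by
          refine Finset.sum_congr rfl fun c _ => ?_
          rw [Finset.sum_mul]
          refine Finset.sum_congr rfl fun f _ => ?_
          ring
  rw [h3, sum_dec hL]
  refine Finset.sum_congr rfl fun h _ => ?_
  by_cases hh : h ∈ H
  · rw [if_pos hh, if_pos hh]
    refine Finset.sum_congr rfl fun k _ => ?_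
    have h4 := coef hL hg hh k hw (fun i => th (q i) (lam i) true s t)
      (fun i => th (q i) (lam i) false s t)
    have h5 : ∀ f : κ → Bool, (∏ i, if f i then th (q i) (lam i) true s t else
        th (q i) (lam i) false s t) = ∏ i, th (q i) (lam i) (f i) s t := by
      intro f
      refine Finset.prod_congr rfl fun i _ => ?_
      cases f i <;> simp
    simp only [h5] at h4
    rw [h4, mul_assoc]
    congr 2
    refine Finset.prod_congr rfl fun i _ => ?_
    rw [← nu_mul (hL.hq i) (lam i) (k i) hs3]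
    simp [th]
  · rw [if_neg hh, if_neg hh]

open Classical in
theorem sum_id (hS : IsSys0 S) (hL : IsLocs S H Kn M0 e p q lam) (hY : IsY S Kn R Y)
    (hB : Beta S R) {P : Polynomial ℂ} {Nf : S.G → ℂ → ℂ} {s t : ℂ} (hs : R < s.re)
    (ht : R < t.re) (hs3 : 3 ≤ s.re) (hw : (ww s t).re < 0)
    (hN : ∀ h ∈ H, ∑ g : S.G, (if g ∈ H then Nf g (ww s t) * M0 (g * h) (ww s t) else 0) =
      if h = 1 then P.eval (ww s t) else 0) :
    (S.cU : ℂ) ^ 2 * ((ww s t) ^ 2 * ((ww s t - 1) ^ 2)⁻¹) *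
      ∑ g : S.G, (if g ∈ H then Nf g (ww s t) *
        (∑ f : κ → Bool, (∏ i, th (q i) (lam i) (f i) s t) *
          Y (g * cl e p fun i => ef (f i)) s t) else 0) =
    P.eval (ww s t) * ∑ k : κ → LC,
      (∏ i, (nd (q i) s * (q i : ℂ) ^ t * nu (q i) (lam i) (k i) s t)) * YR S (cl e p k) t s := by
  have h1 : ∀ g : S.G, (S.cU : ℂ) ^ 2 * ((ww s t) ^ 2 * ((ww s t - 1) ^ 2)⁻¹) *
      (if g ∈ H then Nf g (ww s t) * (∑ f : κ → Bool, (∏ i, th (q i) (lam i) (f i) s t) *
          Y (g * cl e p fun i => ef (f i)) s t) else 0) =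
      ∑ h : S.G, if h ∈ H then ∑ k : κ → LC,
        (if g ∈ H then Nf g (ww s t) * M0 (g * h) (ww s t) else 0) *
        ((∏ i, (nd (q i) s * (q i : ℂ) ^ t * nu (q i) (lam i) (k i) s t)) *
          YR S (h * cl e p k) t s) else 0 := by
    intro g
    by_cases hg : g ∈ H
    · simp only [if_pos hg]
      have h2 := one_g hS hL hY hB hs ht hs3 hw hg
      rw [mul_left_comm, h2, Finset.mul_sum]
      refine Finset.sum_congr rfl fun h _ => ?_
      by_cases hh : h ∈ H
      · rw [if_pos hh, if_pos hh, Finset.mul_sum]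
        refine Finset.sum_congr rfl fun k _ => ?_
        ring
      · rw [if_neg hh, if_neg hh, mul_zero]
    · simp only [if_neg hg]
      simp
  rw [Finset.mul_sum, Finset.sum_congr rfl fun g _ => h1 g, Finset.sum_comm,
    Finset.sum_eq_single (1 : S.G)]
  · simp only [if_pos H.one_mem]
    rw [Finset.sum_comm, Finset.mul_sum]
    refine Finset.sum_congr rfl fun k _ => ?_
    rw [← Finset.sum_mul, hN 1 H.one_mem, if_pos rfl, one_mul]
  · intro h _ hne
    by_cases hh : h ∈ H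
    · simp only [if_pos hh]
      rw [Finset.sum_comm]
      refine Finset.sum_eq_zero fun k _ => ?_
      rw [← Finset.sum_mul, hN h hh, if_neg hne, zero_mul]
    · simp only [if_neg hh]
      simp
  · intro h
    exact absurd (Finset.mem_univ _) h

end Pool.Agent.MD
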