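import Pool.Agent.LD.A.Util
import Pool.Agent.MD.A.Bd1
import Pool.Agent.LD.A.Dbl

/-!
# MD/A-VB: adapted from LD/A/VB (classes in a set `Kn` instead of outside a subgroup)
-/

namespace Pool.Agent.MD

open Pool.Agent.QD Pool.Agent.QD.SysD Pool.Agent.LD

variable {S : SysD} {Kn : Set S.G}

theorem VV_eq (hS : IsSys0 S) (hG : IsKn S Kn) (B : ℝ) (hB : 0 ≤ B) : ∃ R0 : ℝ, ∀ c : S.G, c ∈ Kn →
    ∀ s t : ℂ, 6 < s.re → s.re < B → R0 < t.re → VV S c s t = YR S c s t := by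
  classical
  refine ⟨B + 20, fun c hc s t hs1 hs2 ht => ?_⟩
  have hw : 1 < (ww s t).re := by
    have h1 : (ww s t).re = t.re - s.re + 1 / 2 := by simp [ww]
    rw [h1]
    linarith
  unfold VV YR Pi2 FF
  simp only [DD_eq hS _ c hw]
  have e1 : ∀ m : S.J, (S.nJ m : ℂ) ^ (-s) * ((ww s t - 1) ^ 2 * S.Z1 (ww s t) *
      S.D m c (ww s t)) = ((ww s t - 1) ^ 2 * S.Z1 (ww s t)) *
      ((S.nJ m : ℂ) ^ (-s) * S.D m c (ww s t)) := fun m => by ring
  simp only [e1]
  rw [tsum_mul_left, fubini_D hS c (s := s) (by linarith) hw]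
  have e2 : S.Ls s * (∑' b : S.J, @ite ℂ (S.R b c) (Classical.propDecidable _)
      (S.AA b c s * (S.nJ b : ℂ) ^ (-(ww s t))) 0) = ∑' b : S.J, if S.R b c then
        S.LL b c s * (S.nJ b : ℂ) ^ (-(ww s t)) else 0 := by
    rw [← tsum_mul_left]
    refine tsum_congr fun b' => ?_
    split_ifs with hR
    · rw [AA_eq hS b' c hR (by linarith), LL, hG.ell_eq b' c hR hc s (by linarith)]
      ring
    · ring
  rw [← e2]
  ring

theorem VV_fe (hS : IsSys0 S) (hG : IsKn S Kn) (c : S.G) (hc : c ∈ Kn) (s t : ℂ)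
    (hs : s.re < 1 / 2) : VV S c s t = S.GG c s * VV S c (2 - s) t := by
  classical
  have e1 : ww (2 - s) t = wp s t := by
    unfold ww wp
    ring
  have e2 : wp (2 - s) t = ww s t := by
    unfold ww wp
    ring
  unfold VV
  rw [e1, e2]
  have e3 : (∑' b : S.J, if S.R b c then
        S.LL b c s * (S.nJ b : ℂ) ^ (-(ww s t)) else 0) = S.GG c s * ∑' b : S.J, if S.R b c then
        S.LL b c (2 - s) * (S.nJ b : ℂ) ^ (-(wp s t)) else 0 := by
    rw [← tsum_mul_left]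
    refine tsum_congr fun b' => ?_
    split_ifs with hR
    · rw [LL_fe hS hG b' c hR hc hs]
      have e4 : (S.nJ b' : ℂ) ^ (2 * (1 - s)) * (S.nJ b' : ℂ) ^ (-(ww s t)) =
          (S.nJ b' : ℂ) ^ (-(wp s t)) := by
        rw [nJ_cpow_add hS]
        congr 1
        unfold ww wp
        ring
      rw [← e4]
      ring
    · ring
  rw [e3]
  ring

end Pool.Agent.MD
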