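import Pool.Agent.MD.A.Kf2
import Pool.Agent.MD.A.Nu
import Pool.Agent.LD.A.Line

/-!
# MD/A-Wf: the combination at the reflected point, on the lines `Re s = n + 1/2`

PLAN.  `refl_id`: `ww (2 - s) t = wp s t`; `hY.fe` at `2 - s` (`Re (2 - s) < 1/2`, `kn_ef`): `Y c (2 - s) t = GG c (2 - s) * Y c s t`.
`hL.GG_rel g hg f (2 - s)` multiplied by `∏ i, if f i then 1 else ka (q i) (lam i) (2 - s)` (`Finset.prod_mul_distrib`):
`GG (g cl (ef ∘ f)) (2 - s) * ∏ i, ka = GG (g cl (ef false)) (2 - s) * ∏ i, (if f i then kb else ka)`; then termwise in the sum over `f`.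
`exists_Wf` (adapt `exists_W`, LD/A/Solve.lean): `σ = n + 1/2`, `n ≥ max n1 3` with `n1` from `hG.GG_inv (g * cl (ef false))`.  `exists_E` with `a = 1 - σ`,
`b = σ + 1`, `x0`, `X1`: `E`; `W s t = E (2 - s) t * (GG (..) (2 - s))⁻¹ * ∏ i, ka (q i) (lam i) (2 - s)`.
`OnLine`: `E (2 - s) t`: `OnLine.of_refl`; `(GG ..)⁻¹`: `OnLine.of_fst` (as `F4` there); `ka q lam (2 - s)`: `OnLine.of_fst`, continuous and bounded on the line
(as `F3` there); finite product: `Finset.induction` with `OnLine.mul`, `OnLine.const` (state it as a lemma `OnLine.prod`).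
Agreement: `E (2 - s) t = K1f (2 - s) t` and `refl_id`.
-/

namespace Pool.Agent.MD

open Pool.Agent.QD Pool.Agent.QD.SysD Pool.Agent.LD

/-- the coefficients at the reflected point -/
noncomputable def th (q : ℕ) (lam : ℝ) (f : Bool) (s t : ℂ) : ℂ :=
  if f then r2 q (wp s t) * kb q lam (2 - s) else -(r1 q (wp s t) * ka q lam (2 - s))

variable {S : SysD} {H : Subgroup S.G} {Kn : Set S.G} {M0 : S.G → ℂ → ℂ} {κ : Type} [Fintype κ]
  [DecidableEq κ] {e p : κ → S.G} {q : κ → ℕ} {lam : κ → ℝ} {R : ℝ} {Y : S.G → ℂ → ℂ → ℂ}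

private theorem wf_cpow {q : ℕ} (hq : 101 ≤ q) {f : ℂ → ℂ} (hf : Differentiable ℂ f) :
    Differentiable ℂ fun z => (q : ℂ) ^ (f z) := by
  have hq0 : (q : ℂ) ≠ 0 := by
    have : q ≠ 0 := by omega
    exact_mod_cast this
  intro z
  exact (hf z).const_cpow (Or.inl hq0)

private theorem wf_norm {q : ℕ} (hq : 101 ≤ q) (z : ℂ) : ‖(q : ℂ) ^ z‖ = (q : ℝ) ^ z.re := by
  exact Complex.norm_natCast_cpow_of_pos (by omega) z

private theorem wf_line_re (σ y : ℝ) : ((σ : ℂ) + y * Complex.I).re = σ := by simp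

private theorem wf_line_cont (σ : ℝ) : Continuous fun y : ℝ => (σ : ℂ) + y * Complex.I := by
  fun_prop

private theorem wf_prod {σ x0 X1 : ℝ} {ι : Type} (s : Finset ι) {f : ι → ℂ → ℂ → ℂ}
    (h : ∀ i ∈ s, OnLine σ x0 X1 (f i)) : OnLine σ x0 X1 (fun x y => ∏ i ∈ s, f i x y) := by
  classical
  induction s using Finset.induction_on with
  | empty =>
    simp only [Finset.prod_empty]
    exact OnLine.const 1
  | insert a s ha ih =>
    simp only [Finset.prod_insert ha]
    exact (h a (Finset.mem_insert_self a s)).mul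
      (ih fun i hi => h i (Finset.mem_insert_of_mem hi))

private theorem wf_ka {σ x0 X1 : ℝ} {q : ℕ} (hq : 101 ≤ q) (lam : ℝ) :
    OnLine σ x0 X1 (fun s _ => ka q lam (2 - s)) := by
  refine OnLine.of_fst (f := fun s => ka q lam (2 - s)) ?_ ?_
  · have h1 := (wf_cpow hq (f := fun s : ℂ => 1 - (2 - s)) (by fun_prop)).continuous
    have h2 := (wf_cpow hq (f := fun s : ℂ => 3 - 2 * (2 - s)) (by fun_prop)).continuous
    have h : Continuous (fun s : ℂ => ka q lam (2 - s)) := by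
      unfold ka
      exact (continuous_const.add (continuous_const.mul h1)).add h2
    exact h.comp (wf_line_cont σ)
  · refine ⟨0, 1 + |lam| * (q : ℝ) ^ (σ - 1) + (q : ℝ) ^ (2 * σ - 1), le_refl _, by positivity,
      fun s hs => ?_⟩
    rw [Real.rpow_zero, mul_one]
    unfold ka
    refine (norm_add_le _ _).trans (add_le_add ((norm_add_le _ _).trans (add_le_add ?_ ?_)) ?_)
    · rw [norm_one]
    · rw [norm_mul, wf_norm hq, Complex.norm_real, Real.norm_eq_abs]
      have e : (1 - (2 - s)).re = σ - 1 := by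
        simp only [Complex.sub_re, Complex.one_re, Complex.re_ofNat, hs]
        ring
      rw [e]
    · rw [wf_norm hq]
      have e : (3 - 2 * (2 - s)).re = 2 * σ - 1 := by
        simp only [Complex.sub_re, Complex.mul_re, Complex.re_ofNat, Complex.im_ofNat, hs]
        ring
      rw [e]

theorem refl_id (hL : IsLocs S H Kn M0 e p q lam) (hY : IsY S Kn R Y) {g : S.G} (hg : g ∈ H)
    (s t : ℂ) (hs : 3 / 2 < s.re) (ht : R < t.re)
    (h0 : S.GG (g * cl e p fun _ => ef false) (2 - s) ≠ 0) :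
    K1f S Y e p q g (2 - s) t * (S.GG (g * cl e p fun _ => ef false) (2 - s))⁻¹ *
        ∏ i, ka (q i) (lam i) (2 - s) =
      ∑ f : κ → Bool, (∏ i, th (q i) (lam i) (f i) s t) *
        Y (g * cl e p fun i => ef (f i)) s t := by
  have hre : (2 - s).re < 1 / 2 := by
    simp only [Complex.sub_re, Complex.re_ofNat]
    linarith
  have hww : ww (2 - s) t = wp s t := by
    unfold ww wp
    ring
  unfold K1f
  rw [Finset.sum_mul, Finset.sum_mul]
  refine Finset.sum_congr rfl fun f _ => ?_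
  rw [hY.fe _ (kn_ef hL hg f) (2 - s) t hre ht, sub_sub_cancel, hww]
  have h1 := hL.GG_rel g hg f (2 - s) hre
  have h2 : ∏ i, ka (q i) (lam i) (2 - s) =
      (∏ i, if f i then ka (q i) (lam i) (2 - s) else 1) *
        ∏ i, if f i then 1 else ka (q i) (lam i) (2 - s) := by
    rw [← Finset.prod_mul_distrib]
    refine Finset.prod_congr rfl fun i _ => ?_
    by_cases h : f i = true
    · rw [if_pos h, if_pos h, mul_one]
    · rw [if_neg h, if_neg h, one_mul]
  have h3 : ∏ i, th (q i) (lam i) (f i) s t = (∏ i, co (q i) (f i) (wp s t)) *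
      ((∏ i, if f i then kb (q i) (lam i) (2 - s) else 1) *
        ∏ i, if f i then 1 else ka (q i) (lam i) (2 - s)) := by
    rw [← Finset.prod_mul_distrib, ← Finset.prod_mul_distrib]
    refine Finset.prod_congr rfl fun i _ => ?_
    unfold th co
    by_cases h : f i = true
    · rw [if_pos h, if_pos h, if_pos h, if_pos h, mul_one]
    · rw [if_neg h, if_neg h, if_neg h, if_neg h, one_mul, neg_mul]
  rw [h2, h3]
  generalize (∏ i, co (q i) (f i) (wp s t)) = A
  generalize (∏ i, if f i then ka (q i) (lam i) (2 - s) else 1) = B at h1 ⊢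
  generalize (∏ i, if f i then kb (q i) (lam i) (2 - s) else 1) = D at h1 ⊢
  generalize (∏ i, if f i then 1 else ka (q i) (lam i) (2 - s)) = F
  generalize S.GG (g * cl e p fun i => ef (f i)) (2 - s) = u at h1 ⊢
  generalize S.GG (g * cl e p fun _ => ef false) (2 - s) = v at h1 h0 ⊢
  generalize Y (g * cl e p fun i => ef (f i)) s t = y
  calc A * (u * y) * v⁻¹ * (B * F) = A * ((u * B) * v⁻¹ * F) * y := by ring
    _ = A * ((v * v⁻¹) * D * F) * y := by rw [h1]; ring
    _ = A * (D * F) * y := by rw [mul_inv_cancel₀ h0, one_mul]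

theorem exists_Wf (hS : IsSys0 S) (hG : IsKn S Kn) (hL : IsLocs S H Kn M0 e p q lam)
    (hR : 1 ≤ R) (hY : IsY S Kn R Y) (hB : Beta S R) {g : S.G} (hg : g ∈ H) :
    ∃ n0 : ℕ, ∀ n : ℕ, n0 ≤ n → ∀ x0 X1 : ℝ, ∃ W : ℂ → ℂ → ℂ,
      OnLine ((n : ℝ) + 1 / 2) x0 X1 W ∧
      ∀ s t : ℂ, s.re = (n : ℝ) + 1 / 2 → R < t.re → x0 < t.re → t.re < X1 →
        W s t = ∑ f : κ → Bool, (∏ i, th (q i) (lam i) (f i) s t) *
          Y (g * cl e p fun i => ef (f i)) s t := by
  obtain ⟨n1, hn1⟩ := hG.GG_inv (g * cl e p fun _ => ef false)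
  refine ⟨max n1 3, fun n hn x0 X1 => ?_⟩
  have hn3 : 3 ≤ n := (le_max_right _ _).trans hn
  have hnr : (3 : ℝ) ≤ n := by exact_mod_cast hn3
  obtain ⟨A1, C1, hA1, hC1, hinv⟩ := hn1 n ((le_max_left _ _).trans hn)
  obtain ⟨σ, hσ⟩ : ∃ σ : ℝ, σ = (n : ℝ) + 1 / 2 := ⟨_, rfl⟩
  rw [← hσ] at hinv
  obtain ⟨E, hE1, hE2, hE3⟩ := exists_E hS hL hR hY hB hg (1 - σ) (σ + 1) x0 X1
  have F3 : OnLine σ x0 X1 (fun s _ => ∏ i, ka (q i) (lam i) (2 - s)) :=
    wf_prod (f := fun i s _ => ka (q i) (lam i) (2 - s)) Finset.univ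
      fun i _ => wf_ka (hL.hq i) (lam i)
  have F4 : OnLine σ x0 X1 (fun s _ => (S.GG (g * cl e p fun _ => ef false) (2 - s))⁻¹) := by
    refine OnLine.of_fst (f := fun s => (S.GG (g * cl e p fun _ => ef false) (2 - s))⁻¹) ?_ ?_
    · have hre : ∀ y : ℝ, (2 - ((σ : ℂ) + y * Complex.I)).re < 1 / 2 := by
        intro y
        simp only [Complex.sub_re, Complex.re_ofNat, wf_line_re]
        rw [hσ]
        linarith
      refine Continuous.inv₀ ?_ fun y => (hinv _ (wf_line_re σ y)).1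
      rw [continuous_iff_continuousAt]
      intro y
      have hopen : IsOpen {s : ℂ | s.re < 1 / 2} := isOpen_lt Complex.continuous_re continuous_const
      have h1 : ContinuousAt (S.GG (g * cl e p fun _ => ef false))
          (2 - ((σ : ℂ) + y * Complex.I)) :=
        ((hG.GG_diff (g * cl e p fun _ => ef false)).differentiableAt
          (hopen.mem_nhds (hre y))).continuousAt
      have h2 : ContinuousAt (fun y : ℝ => (2 : ℂ) - ((σ : ℂ) + y * Complex.I)) y :=
        (continuous_const.sub (wf_line_cont σ)).continuousAt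
      exact ContinuousAt.comp (f := fun y : ℝ => (2 : ℂ) - ((σ : ℂ) + y * Complex.I))
        (g := S.GG (g * cl e p fun _ => ef false)) h1 h2
    · exact ⟨A1, C1, hA1, hC1, fun s hs => (hinv s hs).2⟩
  obtain ⟨A2, C2, hA2, hC2, hEb⟩ := hE2
  have hσ2 : 3 / 2 < σ := by rw [hσ]; linarith
  have F8 : OnLine σ x0 X1 (fun s t => E (2 - s) t) := by
    refine OnLine.of_refl hE1 (fun s t hs h1 h2 => ?_) ⟨A2, C2, hA2, hC2, fun s t hs h1 h2 => ?_⟩
    · exact ⟨by simp only [hs]; linarith, by simp only [hs]; linarith, h1, h2⟩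
    · exact hEb s t (by rw [hs]; linarith) (by rw [hs]; linarith) h1 h2
  refine ⟨fun s t => (E (2 - s) t * (S.GG (g * cl e p fun _ => ef false) (2 - s))⁻¹) *
    ∏ i, ka (q i) (lam i) (2 - s), ?_, ?_⟩
  · rw [← hσ]
    exact (F8.mul F4).mul F3
  · intro s t hs ht h1 h2
    rw [← hσ] at hs
    have h2re : (2 - s).re = 2 - σ := by simp [hs]
    have e2 : E (2 - s) t = K1f S Y e p q g (2 - s) t :=
      hE3 (2 - s) t (by rw [h2re]; linarith) (by rw [h2re]; linarith) ht h2 h1
    show (E (2 - s) t * (S.GG (g * cl e p fun _ => ef false) (2 - s))⁻¹) *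
      ∏ i, ka (q i) (lam i) (2 - s) = _
    rw [e2]
    exact refl_id hL hY hg s t (by rw [hs]; exact hσ2) ht (hinv s hs).1

end Pool.Agent.MD
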