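import Pool.Agent.LD.A.RegA
import Pool.Agent.MD.A.VA
import Pool.Agent.MD.A.VB

/-!
# MD/A-YC: adapted from LD/A/YC (classes in a set `Kn` instead of outside a subgroup)
-/

namespace Pool.Agent.MD

open Pool.Agent.QD Pool.Agent.QD.SysD Pool.Agent.LD

variable {S : SysD} {Kn : Set S.G}

theorem IsY.mono {R R' : ℝ} {Y : S.G → ℂ → ℂ → ℂ} (h : IsY S Kn R Y) (hR : R ≤ R') :
    IsY S Kn R' Y where
  hol := fun c hc => (h.hol c hc).mono (fun _ hx => lt_of_le_of_lt hR hx)
  bd := fun c hc a b c' d hc' => h.bd c hc a b c' d (lt_of_le_of_lt hR hc')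
  eq := fun c hc s t hs ht => h.eq c hc s t (lt_of_le_of_lt hR hs) (lt_of_le_of_lt hR ht)
  fe := fun c hc s t hs ht => h.fe c hc s t hs (lt_of_le_of_lt hR ht)

/-- a bound on two adjacent strips -/
private theorem PB_glue {f : ℂ → ℂ → ℂ} {a m b c d : ℝ} (h1 : PB f a m c d) (h2 : PB f m b c d) :
    PB f a b c d := by
  obtain ⟨A1, C1, hA1, hC1, h1⟩ := h1
  obtain ⟨A2, C2, hA2, hC2, h2⟩ := h2
  refine ⟨A1 + A2, C1 + C2, by positivity, by positivity, ?_⟩
  intro s t hsa hsb htc htd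
  have hone : (1 : ℝ) ≤ 1 + |s.im| + |t.im| := by
    have := abs_nonneg s.im
    have := abs_nonneg t.im
    linarith
  have hp1 : (1 + |s.im| + |t.im|) ^ A1 ≤ (1 + |s.im| + |t.im|) ^ (A1 + A2) :=
    Real.rpow_le_rpow_of_exponent_le hone (by linarith)
  have hp2 : (1 + |s.im| + |t.im|) ^ A2 ≤ (1 + |s.im| + |t.im|) ^ (A1 + A2) :=
    Real.rpow_le_rpow_of_exponent_le hone (by linarith)
  have hpos : 0 ≤ (1 + |s.im| + |t.im|) ^ (A1 + A2) := by positivity
  rcases le_total s.re m with hm | hm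
  · calc ‖f s t‖ ≤ C1 * (1 + |s.im| + |t.im|) ^ A1 := h1 s t hsa hm htc htd
      _ ≤ C1 * (1 + |s.im| + |t.im|) ^ (A1 + A2) := mul_le_mul_of_nonneg_left hp1 hC1
      _ ≤ (C1 + C2) * (1 + |s.im| + |t.im|) ^ (A1 + A2) :=
        mul_le_mul_of_nonneg_right (by linarith) hpos
  · calc ‖f s t‖ ≤ C2 * (1 + |s.im| + |t.im|) ^ A2 := h2 s t hm hsb htc htd
      _ ≤ C2 * (1 + |s.im| + |t.im|) ^ (A1 + A2) := mul_le_mul_of_nonneg_left hp2 hC2
      _ ≤ (C1 + C2) * (1 + |s.im| + |t.im|) ^ (A1 + A2) :=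
        mul_le_mul_of_nonneg_right (by linarith) hpos

theorem exists_Y (hS : IsSys0 S) (hG : IsKn S Kn) : ∃ (R : ℝ) (Y : S.G → ℂ → ℂ → ℂ),
    6 ≤ R ∧ IsY S Kn R Y := by
  classical
  obtain ⟨A0, hA0, hreg⟩ := YR_reg hS
  have hB : (0 : ℝ) ≤ A0 + 4 := by linarith
  obtain ⟨R1, hV⟩ := VV_hol hS hG (A0 + 4) hB
  obtain ⟨R2, hE⟩ := VV_eq hS hG (A0 + 4) hB
  set R : ℝ := max (A0 + 1) (max R1 R2) with hRdef
  have hRA : A0 + 1 ≤ R := le_max_left _ _
  have hR1 : R1 ≤ R := le_trans (le_max_left _ _) (le_max_right _ _)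
  have hR2 : R2 ≤ R := le_trans (le_max_right _ _) (le_max_right _ _)
  let Y : S.G → ℂ → ℂ → ℂ := fun c s t =>
    if A0 < s.re then YR S c s t
    else if s.re < 2 - A0 then S.GG c s * YR S c (2 - s) t
    else VV S c s t
  have hre : ∀ s : ℂ, (2 - s).re = 2 - s.re := fun s => by simp
  have F1 : ∀ (c : S.G) (s t : ℂ), A0 < s.re → Y c s t = YR S c s t := by
    intro c s t hs
    simp only [Y, if_pos hs]
  have F2 : ∀ (c : S.G) (s t : ℂ), s.re < 2 - A0 → Y c s t = S.GG c s * YR S c (2 - s) t := by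
    intro c s t hs
    have h1 : ¬ A0 < s.re := by intro h; linarith
    simp only [Y, if_neg h1, if_pos hs]
  have F3 : ∀ (c : S.G), c ∈ Kn → ∀ (s t : ℂ), -(A0 + 2) < s.re → s.re < A0 + 4 → R < t.re →
      Y c s t = VV S c s t := by
    intro c hc s t hs1 hs2 ht
    by_cases h1 : A0 < s.re
    · rw [F1 c s t h1]
      exact (hE c hc s t (by linarith) hs2 (lt_of_le_of_lt hR2 ht)).symm
    · by_cases h2 : s.re < 2 - A0
      · rw [F2 c s t h2, VV_fe hS hG c hc s t (by linarith),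
          hE c hc (2 - s) t (by rw [hre]; linarith) (by rw [hre]; linarith)
            (lt_of_le_of_lt hR2 ht)]
      · simp only [Y, if_neg h1, if_neg h2]
  refine ⟨R, Y, by linarith, ⟨?_, ?_, ?_, ?_⟩⟩
  · intro c hc
    have hc1 : Continuous fun x : ℂ × ℂ => x.1.re := Complex.continuous_re.comp continuous_fst
    have hc2 : Continuous fun x : ℂ × ℂ => x.2.re := Complex.continuous_re.comp continuous_snd
    have H1 : Hol2 {x : ℂ × ℂ | A0 < x.1.re ∧ R < x.2.re} (Y c) := by
      refine Hol2.congr ?_ (g := YR S c) ?_ ?_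
      · exact (isOpen_lt continuous_const hc1).inter (isOpen_lt continuous_const hc2)
      · refine ((hreg c).1).mono ?_
        rintro x ⟨hx1, hx2⟩
        exact ⟨hx1, by linarith⟩
      · rintro x ⟨hx1, _⟩
        exact F1 c _ _ hx1
    have H2 : Hol2 {x : ℂ × ℂ | x.1.re < 2 - A0 ∧ R < x.2.re} (Y c) := by
      refine Hol2.congr ?_ (g := fun s t => S.GG c s * YR S c (2 - s) t) ?_ ?_
      · exact (isOpen_lt hc1 continuous_const).inter (isOpen_lt continuous_const hc2)
      · refine Hol2.mul ?_ ?_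
        · have hO : IsOpen {s : ℂ | s.re < 1 / 2} :=
            isOpen_lt Complex.continuous_re continuous_const
          refine (Hol2.comp1 hO (hG.GG_diff c) hol2_fst).mono ?_
          rintro x ⟨hx1, _⟩
          show x.1.re < 1 / 2
          linarith
        · have hα : Hol2 Set.univ (fun s _ : ℂ => 2 - s) :=
            Hol2.sub (Hol2.const _ 2) hol2_fst
          refine (Hol2.comp ((hreg c).1) hα hol2_snd).mono ?_
          rintro x ⟨hx1, hx2⟩
          show A0 < (2 - x.1).re ∧ A0 < x.2.re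
          rw [hre]
          exact ⟨by linarith, by linarith⟩
      · rintro x ⟨hx1, _⟩
        exact F2 c _ _ hx1
    have H3 : Hol2 {x : ℂ × ℂ | (-(A0 + 2) < x.1.re ∧ x.1.re < A0 + 4) ∧ R < x.2.re} (Y c) := by
      refine Hol2.congr ?_ (g := VV S c) ?_ ?_
      · exact ((isOpen_lt continuous_const hc1).inter (isOpen_lt hc1 continuous_const)).inter
          (isOpen_lt continuous_const hc2)
      · refine ((hV c hc).1).mono ?_
        rintro x ⟨⟨hx1, hx2⟩, hx3⟩
        exact ⟨by linarith, hx2, by linarith⟩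
      · rintro x ⟨⟨hx1, hx2⟩, hx3⟩
        exact F3 c hc _ _ hx1 hx2 hx3
    refine ((H1.union H2).union H3).mono ?_
    intro x hx
    have hx' : R < x.2.re := hx
    by_cases h1 : A0 < x.1.re
    · exact Or.inl (Or.inl ⟨h1, hx'⟩)
    · by_cases h2 : x.1.re < 2 - A0
      · exact Or.inl (Or.inr ⟨h2, hx'⟩)
      · exact Or.inr ⟨⟨by linarith, by linarith⟩, hx'⟩
  · intro c hc a b c' d hc'
    have P1 : PB (Y c) a (1 - A0) c' d := by
      have h0 := hG.GG_bd c a (1 - A0) (by linarith)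
      have h1 : PB (fun s _ => S.GG c s) a (1 - A0) c' d := PB.comp_fst c' d h0
      have h2 : PB (fun s t => YR S c (2 - s) t) (2 - (2 - a)) (2 - (A0 + 1)) c' d :=
        ((hreg c).2 (A0 + 1) (2 - a) c' d (by linarith) (by linarith)).refl2
      have h2' : PB (fun s t => YR S c (2 - s) t) a (1 - A0) c' d :=
        h2.mono (by linarith) (by linarith) le_rfl le_rfl
      refine (h1.mul h2').congr ?_
      intro s t _ hs _ _
      exact F2 c s t (by linarith)
    have P2 : PB (Y c) (1 - A0) (A0 + 1) c' d := by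
      refine ((hV c hc).2 (1 - A0) (A0 + 1) c' d (by linarith) (by linarith)
        (by linarith)).congr ?_
      intro s t hs1 hs2 ht _
      exact F3 c hc s t (by linarith) (by linarith) (by linarith)
    have P3 : PB (Y c) (A0 + 1) b c' d := by
      refine ((hreg c).2 (A0 + 1) b c' d (by linarith) (by linarith)).congr ?_
      intro s t hs1 _ _ _
      exact F1 c s t (by linarith)
    exact PB_glue (PB_glue P1 P2) P3
  · intro c _ s t hs _
    exact F1 c s t (by linarith)
  · intro c hc s t hs ht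
    by_cases h2 : s.re < 2 - A0
    · rw [F2 c s t h2, F1 c (2 - s) t (by rw [hre]; linarith)]
    · rw [F3 c hc s t (by linarith) (by linarith) ht,
        F3 c hc (2 - s) t (by rw [hre]; linarith) (by rw [hre]; linarith) ht]
      exact VV_fe hS hG c hc s t hs

end Pool.Agent.MD
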